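import Mathlib

/-! Feasible bases of a bounded polyhedron and the ridge pairing. -/

namespace Pool.Agent.H.MP_ccba48_gt
open Finset Matrix Function

variable {n : ℕ} {ι : Type*}

def Mat (p : ι → Fin n → ℝ) (a : Fin n → ι) : Matrix (Fin n) (Fin n) ℝ :=
  Matrix.of fun k => p (a k)

noncomputable def D (p : ι → Fin n → ℝ) (a : Fin n → ι) : ℝ := (Mat p a).det

noncomputable def cof (M : Matrix (Fin n) (Fin n) ℝ) (k : Fin n) : Fin n → ℝ :=
  fun l => M.adjugate l k

lemma dot_cof (M : Matrix (Fin n) (Fin n) ℝ) (k : Fin n) (v : Fin n → ℝ) :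
    v ⬝ᵥ cof M k = (M.updateRow k v).det := by
  rw [← cramer_transpose_apply, cramer_eq_adjugate_mulVec, ← adjugate_transpose]
  simp [cof, mulVec, dotProduct, mul_comm]

lemma cof_updateRow (M : Matrix (Fin n) (Fin n) ℝ) (k : Fin n) (v : Fin n → ℝ) :
    cof (M.updateRow k v) k = cof M k := by
  funext l
  simp [cof, adjugate_apply, updateRow_idem]

lemma row_dot_cof (M : Matrix (Fin n) (Fin n) ℝ) (k l : Fin n) :
    M l ⬝ᵥ cof M k = if l = k then M.det else 0 := by
  rw [dot_cof]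
  split_ifs with h
  · subst h; simp
  · exact det_updateRow_eq_zero h

lemma Mat_update (p : ι → Fin n → ℝ) (a : Fin n → ι) (k : Fin n) (j : ι) :
    Mat p (update a k j) = (Mat p a).updateRow k (p j) := by
  ext l m
  by_cases h : l = k
  · subst h; simp [Mat]
  · simp [Mat, updateRow_ne h, update_of_ne h]

lemma D_update (p : ι → Fin n → ℝ) (a : Fin n → ι) (k : Fin n) (j : ι) :
    D p (update a k j) = p j ⬝ᵥ cof (Mat p a) k := by
  rw [D, Mat_update, dot_cof]

lemma cof_update (p : ι → Fin n → ℝ) (a : Fin n → ι) (k : Fin n) (j : ι) :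
    cof (Mat p (update a k j)) k = cof (Mat p a) k := by
  rw [Mat_update, cof_updateRow]

lemma p_dot_cof (p : ι → Fin n → ℝ) (a : Fin n → ι) (k l : Fin n) :
    p (a l) ⬝ᵥ cof (Mat p a) k = if l = k then D p a else 0 :=
  row_dot_cof (Mat p a) k l

noncomputable def xb (p : ι → Fin n → ℝ) (b : ι → ℝ) (a : Fin n → ι) : Fin n → ℝ :=
  (D p a)⁻¹ • ∑ k, b (a k) • cof (Mat p a) k

lemma tight (p : ι → Fin n → ℝ) (b : ι → ℝ) {a : Fin n → ι} (h : D p a ≠ 0) (l : Fin n) :
    p (a l) ⬝ᵥ xb p b a = b (a l) := by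
  simp only [xb, dotProduct_smul, dotProduct_sum, p_dot_cof, smul_eq_mul, mul_ite, mul_zero]
  rw [Finset.sum_ite_eq]
  simp only [mem_univ, if_true]
  field_simp

lemma eq_of_rows (p : ι → Fin n → ℝ) {a : Fin n → ι} (h : D p a ≠ 0) {x y : Fin n → ℝ}
    (hxy : ∀ l, p (a l) ⬝ᵥ x = p (a l) ⬝ᵥ y) : x = y := by
  have h1 : (Mat p a) *ᵥ (x - y) = 0 := by
    funext l
    have := hxy l
    simp only [mulVec, Mat, dotProduct_sub, Pi.zero_apply]
    change p (a l) ⬝ᵥ x - p (a l) ⬝ᵥ y = 0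
    linarith
  have := eq_zero_of_mulVec_eq_zero h h1
  exact sub_eq_zero.mp this

lemma uniq (p : ι → Fin n → ℝ) (b : ι → ℝ) {a : Fin n → ι} (h : D p a ≠ 0) {x : Fin n → ℝ}
    (hx : ∀ l, p (a l) ⬝ᵥ x = b (a l)) : x = xb p b a :=
  eq_of_rows p h fun l => by rw [hx, tight p b h]

lemma inj_of_D (p : ι → Fin n → ℝ) {a : Fin n → ι} (h : D p a ≠ 0) : Injective a := by
  intro k l hkl
  by_contra hne
  exact h (det_zero_of_row_eq hne (by funext m; simp [Mat, hkl]))

def Feas (p : ι → Fin n → ℝ) (b : ι → ℝ) (a : Fin n → ι) : Prop :=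
  D p a ≠ 0 ∧ ∀ j, p j ⬝ᵥ xb p b a ≤ b j

def Gen (p : ι → Fin n → ℝ) (b : ι → ℝ) : Prop :=
  ∀ a, D p a ≠ 0 → ∀ j, (∀ l, a l ≠ j) → p j ⬝ᵥ xb p b a ≠ b j

def Bdd (p : ι → Fin n → ℝ) : Prop := ∀ d : Fin n → ℝ, d ≠ 0 → ∃ j, 0 < p j ⬝ᵥ d

lemma move [Fintype ι] {p : ι → Fin n → ℝ} (hB : Bdd p) {b : ι → ℝ} {x e : Fin n → ℝ}
    (hx : ∀ j, p j ⬝ᵥ x ≤ b j) (he : e ≠ 0) :
    ∃ j, ∃ τ : ℝ, 0 < p j ⬝ᵥ e ∧ 0 ≤ τ ∧ (∀ m, p m ⬝ᵥ (x + τ • e) ≤ b m) ∧
      p j ⬝ᵥ (x + τ • e) = b j := by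
  classical
  obtain ⟨j0, hj0⟩ := hB e he
  obtain ⟨j, hj, hmin⟩ := (univ.filter fun j => 0 < p j ⬝ᵥ e).exists_min_image
    (fun j => (b j - p j ⬝ᵥ x) / (p j ⬝ᵥ e)) ⟨j0, by simpa using hj0⟩
  have hj' : 0 < p j ⬝ᵥ e := by simpa using hj
  have hτ : 0 ≤ (b j - p j ⬝ᵥ x) / (p j ⬝ᵥ e) := div_nonneg (by linarith [hx j]) hj'.le
  refine ⟨j, _, hj', hτ, fun m => ?_, ?_⟩
  · rw [dotProduct_add, dotProduct_smul, smul_eq_mul]
    by_cases hm : 0 < p m ⬝ᵥ e
    · have := hmin m (by simpa using hm)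
      have h2 := (le_div_iff₀ hm).mp this
      linarith
    · have := mul_nonpos_of_nonneg_of_nonpos hτ (not_lt.mp hm)
      linarith [hx m]
  · rw [dotProduct_add, dotProduct_smul, smul_eq_mul]
    field_simp
    ring

lemma partner [Fintype ι] [DecidableEq ι] {p : ι → Fin n → ℝ} (hB : Bdd p) {b : ι → ℝ}
    {a : Fin n → ι} {k : Fin n} {i : ι} (hi : Feas p b (update a k i)) :
    ∃ j, Feas p b (update a k j) ∧ D p (update a k i) * D p (update a k j) < 0 := by
  set d := cof (Mat p a) k with hd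
  have hsi : D p (update a k i) = p i ⬝ᵥ d := D_update p a k i
  have hne : p i ⬝ᵥ d ≠ 0 := hsi ▸ hi.1
  have he : (-(p i ⬝ᵥ d)) • d ≠ 0 := by
    intro h
    have := congrArg (fun v => p i ⬝ᵥ v) h
    simp only [dotProduct_smul, smul_eq_mul, dotProduct_zero, neg_mul, neg_eq_zero,
      mul_self_eq_zero] at this
    exact hne this
  obtain ⟨j, τ, hj, hτ, hK, ht⟩ := move hB hi.2 he
  rw [dotProduct_smul, smul_eq_mul] at hj
  have hsj : D p (update a k j) = p j ⬝ᵥ d := D_update p a k j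
  have hDj : D p (update a k j) ≠ 0 := by
    rw [hsj]; intro h; rw [h] at hj; simp at hj
  have hx : xb p b (update a k i) + τ • (-(p i ⬝ᵥ d)) • d = xb p b (update a k j) := by
    apply uniq p b hDj
    intro l
    by_cases hl : l = k
    · subst hl; simpa using ht
    · have h1 := tight p b hi.1 l
      rw [update_of_ne hl] at h1 ⊢
      rw [dotProduct_add, h1, dotProduct_smul, dotProduct_smul, hd, p_dot_cof, if_neg hl]
      simp
  refine ⟨j, ⟨hDj, fun m => hx ▸ hK m⟩, ?_⟩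
  rw [hsi, hsj]; linarith

lemma same_side [DecidableEq ι] {p : ι → Fin n → ℝ} {b : ι → ℝ} (hG : Gen p b)
    {a : Fin n → ι} {k : Fin n} {i j : ι} (hi : Feas p b (update a k i))
    (hj : Feas p b (update a k j)) (hpos : 0 < D p (update a k i) * D p (update a k j)) :
    i = j := by
  set d := cof (Mat p a) k with hd
  have hsi : D p (update a k i) = p i ⬝ᵥ d := D_update p a k i
  have hsj : D p (update a k j) = p j ⬝ᵥ d := D_update p a k j
  have hne : p i ⬝ᵥ d ≠ 0 := hsi ▸ hi.1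
  set xi := xb p b (update a k i)
  set xj := xb p b (update a k j)
  set t := (p i ⬝ᵥ xj - p i ⬝ᵥ xi) / (p i ⬝ᵥ d) with ht
  have hti : p i ⬝ᵥ xi = b i := by simpa using tight p b hi.1 k
  have htj : p j ⬝ᵥ xj = b j := by simpa using tight p b hj.1 k
  have hz : xj = xi + t • d := by
    apply eq_of_rows p hi.1
    intro l
    by_cases hl : l = k
    · subst hl
      simp only [update_self, dotProduct_add, dotProduct_smul, smul_eq_mul, ht]
      field_simp
      ring
    · have h1 := tight p b hi.1 l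
      have h2 := tight p b hj.1 l
      rw [update_of_ne hl] at h1 h2 ⊢
      rw [dotProduct_add, dotProduct_smul, hd, p_dot_cof, if_neg hl]
      simp only [smul_eq_mul, mul_zero, add_zero]
      exact h2.trans h1.symm
  have h1 : t * (p i ⬝ᵥ d) ≤ 0 := by
    have := hj.2 i
    change p i ⬝ᵥ xj ≤ b i at this
    rw [hz, dotProduct_add, dotProduct_smul, smul_eq_mul] at this
    linarith
  have h2 : 0 ≤ t * (p j ⬝ᵥ d) := by
    have := hi.2 j
    change p j ⬝ᵥ xi ≤ b j at this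
    rw [hz, dotProduct_add, dotProduct_smul, smul_eq_mul] at htj
    linarith
  rw [hsi, hsj] at hpos
  have ht0 : t = 0 := by
    by_contra h
    have h3 : 0 < t * t := mul_self_pos.mpr h
    have h4 := mul_nonpos_of_nonpos_of_nonneg h1 h2
    have h5 := mul_pos h3 hpos
    nlinarith
  rw [ht0, zero_smul, add_zero] at hz
  by_contra hij
  refine hG _ hi.1 j (fun l hl => ?_) (by change p j ⬝ᵥ xi = b j; rw [← hz]; exact htj)
  by_cases hlk : l = k
  · subst hlk; simp at hl; exact hij hl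
  · rw [update_of_ne hlk] at hl
    have := hj.1
    rw [hsj, ← hl, hd, p_dot_cof, if_neg hlk] at this
    exact this rfl

open Classical in
noncomputable def sg (p : ι → Fin n → ℝ) (b : ι → ℝ) (a : Fin n → ι) : ℝ :=
  if Feas p b a then |D p a| / D p a else 0

lemma sg_sum [Fintype ι] [DecidableEq ι] {p : ι → Fin n → ℝ} (hB : Bdd p) {b : ι → ℝ}
    (hG : Gen p b) (a : Fin n → ι) (k : Fin n) : ∑ j, sg p b (update a k j) = 0 := by
  by_cases hex : ∃ i, Feas p b (update a k i)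
  · obtain ⟨i, hi⟩ := hex
    obtain ⟨j, hj, hneg⟩ := partner hB hi
    have hij : i ≠ j := by
      rintro rfl
      exact absurd hneg (not_lt.mpr (mul_self_nonneg _))
    rw [Finset.sum_eq_add i j hij _ (by simp) (by simp)]
    · simp only [sg, if_pos hi, if_pos hj]
      rcases mul_neg_iff.mp hneg with ⟨h1, h2⟩ | ⟨h1, h2⟩
      · rw [abs_of_pos h1, abs_of_neg h2, div_self h1.ne', neg_div, div_self h2.ne]; ring
      · rw [abs_of_pos h2, abs_of_neg h1, div_self h2.ne', neg_div, div_self h1.ne]; ring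
    · rintro m - ⟨hmi, hmj⟩
      simp only [sg]
      rw [if_neg]
      intro hm
      rcases lt_or_gt_of_ne (mul_ne_zero hi.1 hm.1) with h | h
      · apply hmj
        apply (same_side hG hj hm _).symm
        have h3 : 0 < D p (update a k i) * D p (update a k i) := mul_self_pos.mpr hi.1
        have h4 := mul_pos_of_neg_of_neg hneg h
        by_contra h5
        have := mul_nonpos_of_nonneg_of_nonpos h3.le (not_lt.mp h5)
        nlinarith
      · exact hmi (same_side hG hi hm h).symm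
  · push Not at hex
    simp [sg, hex]

lemma sum_zero_of_update [Fintype ι] [DecidableEq ι] (k : Fin n) (G : (Fin n → ι) → ℝ)
    (h : ∀ a, ∑ j, G (update a k j) = 0) : ∑ a, G a = 0 := by
  rcases isEmpty_or_nonempty ι with hι | hι
  · have : IsEmpty (Fin n → ι) := ⟨fun a => hι.elim (a k)⟩
    simp
  have hinv : Involutive (fun q : (Fin n → ι) × ι => (update q.1 k q.2, q.1 k)) := by
    rintro ⟨a, j⟩; simp
  have h1 : ∑ q : (Fin n → ι) × ι, G (update q.1 k q.2) = ∑ q : (Fin n → ι) × ι, G q.1 :=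
    Equiv.sum_comp hinv.toPerm (fun q => G q.1)
  rw [Fintype.sum_prod_type, Fintype.sum_prod_type] at h1
  simp only [h, sum_const_zero, sum_const, card_univ, nsmul_eq_mul, ← Finset.mul_sum] at h1
  have hc : (Fintype.card ι : ℝ) ≠ 0 := by exact_mod_cast Fintype.card_ne_zero
  exact (mul_eq_zero.mp h1.symm).resolve_left hc

lemma sum_sg_mul [Fintype ι] [DecidableEq ι] {p : ι → Fin n → ℝ} (hB : Bdd p) {b : ι → ℝ}
    (hG : Gen p b) (k : Fin n) (H : (Fin n → ι) → ℝ) (hH : ∀ a j, H (update a k j) = H a) :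
    ∑ a, sg p b a * H a = 0 := by
  apply sum_zero_of_update k
  intro a
  simp only [hH, ← Finset.sum_mul, sg_sum hB hG, zero_mul]

end Pool.Agent.H.MP_ccba48_gt
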