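import Pool.Agent.H.MP_ccba48_gt.A

/-! Existence of feasible bases, generic right-hand sides, and the cone-measure identities. -/

namespace Pool.Agent.H.MP_ccba48_gt
open Finset Matrix Function Filter Topology

variable {n : ℕ} {ι : Type*}

lemma bdd_of_bound {p : ι → Fin n → ℝ} {R2 : ℝ}
    (hK : ∀ x : Fin n → ℝ, (∀ j, p j ⬝ᵥ x ≤ 1) → x ⬝ᵥ x ≤ R2) : Bdd p := by
  intro d hd
  by_contra h
  push Not at h
  have hpos : 0 < d ⬝ᵥ d := by
    rcases (dotProduct_self_star_nonneg d).lt_or_eq with h1 | h1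
    · simpa using h1
    · exact absurd (dotProduct_self_eq_zero.mp (by simpa using h1.symm)) hd
  set t := (|R2| + 1) / (d ⬝ᵥ d) + 1 with ht
  have ht1 : 1 ≤ t := by
    have : 0 ≤ (|R2| + 1) / (d ⬝ᵥ d) := by positivity
    linarith
  have := hK (t • d) (fun j => by
    rw [dotProduct_smul, smul_eq_mul]
    have := mul_nonpos_of_nonneg_of_nonpos (by linarith : 0 ≤ t) (h j)
    linarith)
  rw [dotProduct_smul, smul_dotProduct, smul_eq_mul, smul_eq_mul] at this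
  have h2 : t * (d ⬝ᵥ d) = |R2| + 1 + d ⬝ᵥ d := by rw [ht]; field_simp
  have h3 : t * (d ⬝ᵥ d) ≤ t * (t * (d ⬝ᵥ d)) := by
    have : 0 ≤ t * (d ⬝ᵥ d) := by positivity
    nlinarith
  linarith [le_abs_self R2]

lemma exists_feas [Fintype ι] {p : ι → Fin n → ℝ} (hB : Bdd p) {b : ι → ℝ} (hb : ∀ j, 0 ≤ b j) :
    ∃ a, Feas p b a := by
  classical
  have key : ∀ s : Finset (Fin n), ∃ (M : Matrix (Fin n) (Fin n) ℝ) (x : Fin n → ℝ), M.det ≠ 0 ∧
      (∀ j, p j ⬝ᵥ x ≤ b j) ∧ ∀ k ∈ s, ∃ j, M k = p j ∧ p j ⬝ᵥ x = b j := by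
    intro s
    induction s using Finset.induction_on with
    | empty => exact ⟨1, 0, by simp, by simpa using hb, by simp⟩
    | insert m s hm ih =>
      obtain ⟨M, x, hM, hx, hs⟩ := ih
      have hd : cof M m ≠ 0 := by
        intro h
        have := row_dot_cof M m m
        rw [h] at this
        simp at this
        exact hM this.symm
      obtain ⟨j, τ, hj, -, hK, ht⟩ := move hB hx hd
      refine ⟨M.updateRow m (p j), x + τ • cof M m, by rw [← dot_cof]; exact hj.ne', hK, ?_⟩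
      intro k hk
      rcases mem_insert.mp hk with rfl | hk
      · exact ⟨j, by simp, ht⟩
      · obtain ⟨j', h1, h2⟩ := hs k hk
        have hkm : k ≠ m := fun h => hm (h ▸ hk)
        refine ⟨j', by rw [updateRow_ne hkm, h1], ?_⟩
        rw [dotProduct_add, dotProduct_smul, h2, ← h1, row_dot_cof, if_neg hkm]
        simp
  obtain ⟨M, x, hM, hx, hs⟩ := key univ
  choose a ha using fun k => hs k (mem_univ k)
  have hMa : Mat p a = M := by ext k l; simp [Mat, (ha k).1]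
  have hD : D p a ≠ 0 := by rw [D, hMa]; exact hM
  refine ⟨a, hD, ?_⟩
  rw [← uniq p b hD (fun l => (ha l).2)]
  exact hx

lemma xb_add_smul (p : ι → Fin n → ℝ) (b v : ι → ℝ) (t : ℝ) (a : Fin n → ι) :
    xb p (b + t • v) a = xb p b a + t • xb p v a := by
  simp only [xb, Pi.add_apply, Pi.smul_apply, smul_eq_mul, add_smul, sum_add_distrib, smul_add,
    mul_smul, ← Finset.smul_sum]
  rw [smul_comm t]

noncomputable def Lf (p : ι → Fin n → ℝ) (a : Fin n → ι) (j : ι) : (ι → ℝ) →ₗ[ℝ] ℝ where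
  toFun b := b j - p j ⬝ᵥ xb p b a
  map_add' b v := by
    have := xb_add_smul p b v 1 a
    simp only [one_smul] at this
    rw [this, dotProduct_add]; simp; ring
  map_smul' t v := by
    have := xb_add_smul p 0 v t a
    simp only [zero_add] at this
    rw [this]; simp [xb]; ring

lemma Lf_apply (p : ι → Fin n → ℝ) (a : Fin n → ι) (j : ι) (b : ι → ℝ) :
    Lf p a j b = b j - p j ⬝ᵥ xb p b a := rfl

lemma ev_real (α β : ℝ) :
    ∀ᶠ t in 𝓝[>] (0 : ℝ), (β ≠ 0 → α + t * β ≠ 0) ∧ (α < 0 → α + t * β < 0) ∧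
      (0 < α → 0 < α + t * β) := by
  have hc : Tendsto (fun t : ℝ => α + t * β) (𝓝[>] 0) (𝓝 α) := by
    have : Continuous (fun t : ℝ => α + t * β) := by fun_prop
    simpa using (this.tendsto 0).mono_left (nhdsWithin_le_nhds (s := Set.Ioi 0))
  rcases lt_trichotomy α 0 with h | h | h
  · filter_upwards [hc.eventually (gt_mem_nhds h)] with t ht
    exact ⟨fun _ => ht.ne, fun _ => ht, fun h' => absurd h' (by linarith)⟩
  · filter_upwards [self_mem_nhdsWithin] with t ht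
    have ht' : 0 < t := ht
    subst h
    exact ⟨fun hb => by simpa using ⟨ht'.ne', hb⟩, fun h => absurd h (by simp),
      fun h => absurd h (by simp)⟩
  · filter_upwards [hc.eventually (lt_mem_nhds h)] with t ht
    exact ⟨fun _ => ht.ne', fun h' => absurd h' (by linarith), fun _ => ht⟩

lemma exists_gen [Fintype ι] (p : ι → Fin n → ℝ) :
    ∃ b : ι → ℝ, Gen p b ∧ (∀ j, 0 ≤ b j) ∧ ∀ a, Feas p b a → ∀ j, p j ⬝ᵥ xb p 1 a ≤ 1 := by
  classical
  obtain ⟨v, hv⟩ := Module.Dual.exists_forall_ne_zero_of_forall_exists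
    (ι := {q : (Fin n → ι) × ι // ∀ l, q.1 l ≠ q.2}) (fun q => Lf p q.1.1 q.1.2) (by
      rintro ⟨⟨a, j⟩, h⟩
      refine ⟨Pi.single j 1, ?_⟩
      have : xb p (Pi.single j 1) a = 0 := by
        simp only [xb]
        rw [Finset.sum_eq_zero, smul_zero]
        intro k _
        rw [Pi.single_eq_of_ne (h k), zero_smul]
      simp [Lf, this])
  have h1 : ∀ᶠ t in 𝓝[>] (0 : ℝ), ∀ q : (Fin n → ι) × ι,
      (Lf p q.1 q.2 v ≠ 0 → Lf p q.1 q.2 1 + t * Lf p q.1 q.2 v ≠ 0) ∧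
      (Lf p q.1 q.2 1 < 0 → Lf p q.1 q.2 1 + t * Lf p q.1 q.2 v < 0) :=
    eventually_all.mpr fun q => (ev_real _ _).mono fun t ht => ⟨ht.1, ht.2.1⟩
  have h2 : ∀ᶠ t in 𝓝[>] (0 : ℝ), ∀ j, 0 < 1 + t * v j :=
    eventually_all.mpr fun j => (ev_real _ _).mono fun t ht => ht.2.2 one_pos
  obtain ⟨t, ht1, ht2⟩ := (h1.and h2).exists
  have hL : ∀ a j, Lf p a j (1 + t • v) = Lf p a j 1 + t * Lf p a j v := by
    intro a j; rw [map_add, map_smul, smul_eq_mul]
  refine ⟨1 + t • v, fun a _ j hj h => ?_, fun j => (ht2 j).le, fun a ha j => ?_⟩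
  · apply (ht1 (a, j)).1 (hv ⟨(a, j), hj⟩)
    rw [← hL, Lf_apply, h, sub_self]
  · by_contra h
    have h3 : Lf p a j 1 < 0 := by
      rw [Lf_apply, Pi.one_apply]
      linarith [not_le.mp h]
    have h4 := (ht1 (a, j)).2 h3
    rw [← hL, Lf_apply] at h4
    have h5 := ha.2 j
    linarith

open Classical in
noncomputable def wt (p : ι → Fin n → ℝ) (b : ι → ℝ) (a : Fin n → ι) : ℝ :=
  if Feas p b a then |D p a| else 0

lemma wt_nonneg (p : ι → Fin n → ℝ) (b : ι → ℝ) (a : Fin n → ι) : 0 ≤ wt p b a := by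
  unfold wt; split_ifs <;> positivity

lemma wt_dot (p : ι → Fin n → ℝ) (b : ι → ℝ) (a : Fin n → ι) (u : Fin n → ℝ) :
    wt p b a * (u ⬝ᵥ xb p 1 a) = ∑ k, sg p b a * (u ⬝ᵥ cof (Mat p a) k) := by
  rw [← Finset.mul_sum]
  simp only [xb, dotProduct_smul, dotProduct_sum, Pi.one_apply, one_smul, smul_eq_mul, wt, sg]
  split_ifs
  · ring
  · simp

lemma sg_mul_D (p : ι → Fin n → ℝ) (b : ι → ℝ) (a : Fin n → ι) :
    sg p b a * D p a = wt p b a := by
  simp only [wt, sg]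
  split_ifs with h
  · exact div_mul_cancel₀ _ h.1
  · simp

lemma mean_zero [Fintype ι] [DecidableEq ι] {p : ι → Fin n → ℝ} (hB : Bdd p) {b : ι → ℝ}
    (hG : Gen p b) (u : Fin n → ℝ) : ∑ a, wt p b a * (u ⬝ᵥ xb p 1 a) = 0 := by
  simp only [wt_dot]
  rw [Finset.sum_comm]
  refine Finset.sum_eq_zero fun k _ => sum_sg_mul hB hG k _ fun a j => ?_
  rw [cof_update]

lemma sum_cof_row (M : Matrix (Fin n) (Fin n) ℝ) (u v : Fin n → ℝ) :
    ∑ k, (u ⬝ᵥ cof M k) * (M k ⬝ᵥ v) = M.det * (u ⬝ᵥ v) := by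
  have h : u ⬝ᵥ ((M.adjugate * M) *ᵥ v) = M.det * (u ⬝ᵥ v) := by
    rw [adjugate_mul, smul_mulVec, one_mulVec, dotProduct_smul, smul_eq_mul]
  rw [← h, ← mulVec_mulVec, dotProduct_mulVec]
  simp only [dotProduct, vecMul, mulVec, cof]

lemma div_identity [Fintype ι] [DecidableEq ι] {p : ι → Fin n → ℝ} (hB : Bdd p) {b : ι → ℝ}
    (hG : Gen p b) (u v : Fin n → ℝ) :
    ∑ a, wt p b a * (u ⬝ᵥ xb p 1 a) * (∑ l, p (a l) ⬝ᵥ v) = (∑ a, wt p b a) * (u ⬝ᵥ v) := by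
  have h1 : ∀ a : Fin n → ι, wt p b a * (u ⬝ᵥ xb p 1 a) * (∑ l, p (a l) ⬝ᵥ v) =
      wt p b a * (u ⬝ᵥ v) + ∑ k, sg p b a * ((u ⬝ᵥ cof (Mat p a) k) *
        ∑ l ∈ univ.erase k, p (a l) ⬝ᵥ v) := by
    intro a
    rw [wt_dot, Finset.sum_mul, ← sg_mul_D, mul_assoc (sg p b a) (D p a), D, ← sum_cof_row,
      Finset.mul_sum univ _ (sg p b a), ← sum_add_distrib]
    refine Finset.sum_congr rfl fun k _ => ?_
    rw [← Finset.add_sum_erase _ _ (mem_univ k)]
    change _ = sg p b a * (_ * (p (a k) ⬝ᵥ v)) + _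
    ring
  simp only [h1, sum_add_distrib, ← Finset.sum_mul]
  rw [Finset.sum_comm, Finset.sum_eq_zero (s := univ) (f := fun k => ∑ a, sg p b a *
    ((u ⬝ᵥ cof (Mat p a) k) * ∑ l ∈ univ.erase k, p (a l) ⬝ᵥ v)), add_zero]
  refine fun k _ => sum_sg_mul hB hG k _ fun a j => ?_
  rw [cof_update]
  congr 1
  refine Finset.sum_congr rfl fun l hl => ?_
  rw [update_of_ne (ne_of_mem_erase hl)]

end Pool.Agent.H.MP_ccba48_gt
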