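import Pool.Agent.H.MP_ccba48_gt.B

/-! Whitening of a finite distribution and the resulting trace inequality. -/

namespace Pool.Agent.H.MP_ccba48_gt
open Finset Matrix Function

variable {n : ℕ} {ι : Type*}

lemma spectral (S : Matrix (Fin n) (Fin n) ℝ) (hS : S.IsHermitian) :
    ∃ (e : Fin n → Fin n → ℝ) (σ : Fin n → ℝ), (∀ k, S *ᵥ e k = σ k • e k) ∧
      (∀ k l, e k ⬝ᵥ e l = if k = l then 1 else 0) ∧
      ∀ u v : Fin n → ℝ, ∑ k, (u ⬝ᵥ e k) * (v ⬝ᵥ e k) = u ⬝ᵥ v := by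
  refine ⟨fun k => ⇑(hS.eigenvectorBasis k), hS.eigenvalues, fun k => ?_, fun k l => ?_,
    fun u v => ?_⟩
  · exact hS.mulVec_eigenvectorBasis k
  · have := orthonormal_iff_ite.mp hS.eigenvectorBasis.orthonormal l k
    rw [EuclideanSpace.inner_eq_star_dotProduct] at this
    simp only [star_trivial] at this
    rw [this]
    simp [eq_comm]
  · have := hS.eigenvectorBasis.sum_inner_mul_inner (WithLp.toLp 2 u) (WithLp.toLp 2 v)
    simp only [EuclideanSpace.inner_eq_star_dotProduct, star_trivial] at this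
    rw [dotProduct_comm u v, ← this]
    refine Finset.sum_congr rfl fun k _ => ?_
    rw [dotProduct_comm u]

lemma whiten {α : Type*} [Fintype α] [Fintype ι] (p : ι → Fin n → ℝ) (μ : α → ℝ)
    (hμ : ∀ a, 0 ≤ μ a) (x : α → Fin n → ℝ) (θ : α → ι → ℝ)
    (hmean : ∀ u, ∑ a, μ a * (u ⬝ᵥ x a) = 0)
    (hdiv : ∀ u v, ∑ a, μ a * (u ⬝ᵥ x a) * (∑ j, θ a j * (p j ⬝ᵥ v)) = u ⬝ᵥ v) :
    ∃ (σ : Fin n → ℝ) (g : ι → α → ℝ), (∀ k, 0 < σ k) ∧
      (∑ k, σ k = ∑ a, μ a * (x a ⬝ᵥ x a)) ∧ (∀ j, ∑ a, μ a * g j a = 0) ∧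
      (∀ j, ∑ a, μ a * g j a ^ 2 = p j ⬝ᵥ p j) ∧
      (∑ j, ∑ a, μ a * (g j a * θ a j) = ∑ k, 1 / √(σ k)) ∧
      ∀ c : ℝ, (∀ k, σ k = c) → (∀ j a, g j a = p j ⬝ᵥ x a / √c) ∧
        ∀ u v, ∑ a, μ a * ((u ⬝ᵥ x a) * (v ⬝ᵥ x a)) = c * (u ⬝ᵥ v) := by
  set S : Matrix (Fin n) (Fin n) ℝ := Matrix.of fun k l => ∑ a, μ a * (x a k * x a l) with hSdef
  have hS : S.IsHermitian := by
    ext k l
    simp [hSdef, mul_comm]
  have hq : ∀ u v, ∑ a, μ a * ((u ⬝ᵥ x a) * (v ⬝ᵥ x a)) = u ⬝ᵥ S *ᵥ v := by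
    intro u v
    simp only [dotProduct, mulVec, hSdef, of_apply, Finset.sum_mul, Finset.mul_sum]
    rw [Finset.sum_comm]
    rw [Finset.sum_comm (s := univ) (t := univ) (f := fun i j : Fin n => ∑ a, u i * (μ a * (x a i * x a j) * v j))]
    refine Finset.sum_congr rfl fun l _ => ?_
    rw [Finset.sum_comm]
    refine Finset.sum_congr rfl fun k _ => Finset.sum_congr rfl fun a _ => by ring
  obtain ⟨e, σ, he, hon, hpar⟩ := spectral S hS
  have hξ : ∀ k l, ∑ a, μ a * ((e k ⬝ᵥ x a) * (e l ⬝ᵥ x a)) = if k = l then σ k else 0 := by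
    intro k l
    rw [hq, he, dotProduct_smul, hon]
    split_ifs with h
    · subst h; simp
    · simp
  have hpos : ∀ k, 0 < σ k := by
    intro k
    have h1 := hξ k k
    rw [if_pos rfl] at h1
    have h0 : ∀ a ∈ univ, 0 ≤ μ a * ((e k ⬝ᵥ x a) * (e k ⬝ᵥ x a)) :=
      fun a _ => mul_nonneg (hμ a) (mul_self_nonneg _)
    rcases (h1 ▸ Finset.sum_nonneg h0 : 0 ≤ σ k).lt_or_eq with h | h
    · exact h
    · exfalso
      have h2 := (Finset.sum_eq_zero_iff_of_nonneg h0).mp (h1.trans h.symm)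
      have h3 := hdiv (e k) (e k)
      rw [hon, if_pos rfl, Finset.sum_eq_zero] at h3
      · exact zero_ne_one h3
      · intro a ha
        rcases mul_eq_zero.mp (h2 a ha) with h4 | h4
        · simp [h4]
        · simp [mul_self_eq_zero.mp h4]
  have hs : ∀ k, √(σ k) ≠ 0 := fun k => (Real.sqrt_pos.mpr (hpos k)).ne'
  refine ⟨σ, fun j a => ∑ k, (p j ⬝ᵥ e k) / √(σ k) * (e k ⬝ᵥ x a), hpos, ?_, fun j => ?_,
    fun j => ?_, ?_, fun c hc => ⟨fun j a => ?_, fun u v => ?_⟩⟩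
  · have : ∀ a, μ a * (x a ⬝ᵥ x a) = ∑ k, μ a * ((e k ⬝ᵥ x a) * (e k ⬝ᵥ x a)) := by
      intro a
      rw [← Finset.mul_sum, ← hpar]
      simp only [dotProduct_comm (x a)]
    simp only [this]
    rw [Finset.sum_comm]
    refine Finset.sum_congr rfl fun k _ => ?_
    rw [hξ, if_pos rfl]
  · simp only [Finset.mul_sum]
    rw [Finset.sum_comm]
    refine Finset.sum_eq_zero fun k _ => ?_
    have : ∀ a, μ a * ((p j ⬝ᵥ e k) / √(σ k) * (e k ⬝ᵥ x a)) =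
        (p j ⬝ᵥ e k) / √(σ k) * (μ a * (e k ⬝ᵥ x a)) := fun a => by ring
    simp only [this, ← Finset.mul_sum, hmean, mul_zero]
  · have : ∀ a, μ a * (∑ k, (p j ⬝ᵥ e k) / √(σ k) * (e k ⬝ᵥ x a)) ^ 2 =
        ∑ k, ∑ l, (p j ⬝ᵥ e k) / √(σ k) * ((p j ⬝ᵥ e l) / √(σ l)) *
          (μ a * ((e k ⬝ᵥ x a) * (e l ⬝ᵥ x a))) := by
      intro a
      rw [sq, Finset.sum_mul_sum, Finset.mul_sum]
      refine Finset.sum_congr rfl fun k _ => ?_
      rw [Finset.mul_sum]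
      exact Finset.sum_congr rfl fun l _ => by ring
    simp only [this]
    rw [Finset.sum_comm, ← hpar]
    refine Finset.sum_congr rfl fun k _ => ?_
    rw [Finset.sum_comm]
    simp only [← Finset.mul_sum, hξ, mul_ite, mul_zero]
    rw [Finset.sum_ite_eq]
    simp only [mem_univ, if_true]
    have := Real.mul_self_sqrt (hpos k).le
    have h2 := hs k
    field_simp
    rw [Real.sq_sqrt (hpos k).le]
  · rw [Finset.sum_comm]
    have : ∀ a, ∑ j, μ a * ((∑ k, (p j ⬝ᵥ e k) / √(σ k) * (e k ⬝ᵥ x a)) * θ a j) =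
        ∑ k, 1 / √(σ k) * (μ a * (e k ⬝ᵥ x a) * ∑ j, θ a j * (p j ⬝ᵥ e k)) := by
      intro a
      simp only [Finset.sum_mul, Finset.mul_sum]
      rw [Finset.sum_comm]
      exact Finset.sum_congr rfl fun k _ => Finset.sum_congr rfl fun j _ => by ring
    simp only [this]
    rw [Finset.sum_comm]
    refine Finset.sum_congr rfl fun k _ => ?_
    rw [← Finset.mul_sum, hdiv, hon, if_pos rfl, mul_one]
  · simp only [hc]
    rw [← hpar, Finset.sum_div]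
    exact Finset.sum_congr rfl fun k _ => by rw [dotProduct_comm (x a)]; ring
  · rw [hq, ← hpar u (S *ᵥ v), ← hpar u v, Finset.mul_sum]
    refine Finset.sum_congr rfl fun k _ => ?_
    have h1 : (S *ᵥ v) ⬝ᵥ e k = σ k * (v ⬝ᵥ e k) := by
      rw [dotProduct_comm, ← hq]
      simp only [mul_comm (e k ⬝ᵥ _)]
      rw [hq, he, dotProduct_smul, smul_eq_mul]
    rw [h1, hc]; ring

lemma tangent {σ c : ℝ} (hσ : 0 < σ) (hc : 0 < c) :
    (3 - σ / c) / (2 * √c) ≤ 1 / √σ ∧ ((3 - σ / c) / (2 * √c) = 1 / √σ → σ = c) := by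
  obtain ⟨s, hs, rfl⟩ : ∃ s : ℝ, 0 < s ∧ σ = s ^ 2 := ⟨√σ, Real.sqrt_pos.mpr hσ, (Real.sq_sqrt hσ.le).symm⟩
  obtain ⟨t, ht, rfl⟩ : ∃ t : ℝ, 0 < t ∧ c = t ^ 2 := ⟨√c, Real.sqrt_pos.mpr hc, (Real.sq_sqrt hc.le).symm⟩
  rw [Real.sqrt_sq hs.le, Real.sqrt_sq ht.le]
  have key : 1 / s - (3 - s ^ 2 / t ^ 2) / (2 * t) = (s - t) ^ 2 * (s + 2 * t) / (2 * s * t ^ 3) := by
    field_simp; ring
  constructor
  · have : 0 ≤ (s - t) ^ 2 * (s + 2 * t) / (2 * s * t ^ 3) := by positivity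
    linarith
  · intro h
    have h1 : (s - t) ^ 2 * (s + 2 * t) / (2 * s * t ^ 3) = 0 := by linarith
    have h2 : (s - t) ^ 2 * (s + 2 * t) = 0 := by
      rcases div_eq_zero_iff.mp h1 with h | h
      · exact h
      · exact absurd h (by positivity)
    rcases mul_eq_zero.mp h2 with h | h
    · have : s = t := by simpa [sub_eq_zero] using h
      rw [this]
    · exact absurd h (by positivity)

/-- If the eigenvalues sum to at most `n c`, their inverse square roots sum to at least `n / √c`. -/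
lemma sum_inv_sqrt (σ : Fin n → ℝ) (hσ : ∀ k, 0 < σ k) {c : ℝ} (hc : 0 < c)
    (h : ∑ k, σ k ≤ n * c) :
    n / √c ≤ ∑ k, 1 / √(σ k) ∧ (∑ k, 1 / √(σ k) ≤ n / √c → ∀ k, σ k = c) := by
  have hs : 0 < √c := Real.sqrt_pos.mpr hc
  have h1 : n / √c ≤ ∑ k, (3 - σ k / c) / (2 * √c) := by
    rw [← Finset.sum_div, Finset.sum_sub_distrib, ← Finset.sum_div]
    simp only [sum_const, card_univ, Fintype.card_fin, nsmul_eq_mul]
    have : (∑ k, σ k) / c ≤ n := by rw [div_le_iff₀ hc]; exact h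
    rw [div_le_div_iff₀ hs (by positivity)]
    nlinarith
  have h2 : ∀ k ∈ univ, (3 - σ k / c) / (2 * √c) ≤ 1 / √(σ k) := fun k _ => (tangent (hσ k) hc).1
  refine ⟨h1.trans (Finset.sum_le_sum h2), fun h3 k => (tangent (hσ k) hc).2 ?_⟩
  exact (Finset.sum_eq_sum_iff_of_le h2).mp (le_antisymm (Finset.sum_le_sum h2) (h3.trans h1)) k
    (mem_univ k)

end Pool.Agent.H.MP_ccba48_gt
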