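import Pool.Agent.H.MP_ccba48_gt.C

/-! The cone measure on feasible bases and the main inequality. -/

namespace Pool.Agent.H.MP_ccba48_gt
open Finset Matrix Function

variable {n : ℕ} {ι : Type*}

open Classical in
noncomputable def th (a : Fin n → ι) (j : ι) : ℝ := if ∃ l, a l = j then 1 else 0

lemma sum_th [Fintype ι] {a : Fin n → ι} (ha : Injective a) (f : ι → ℝ) :
    ∑ j, th a j * f j = ∑ l, f (a l) := by
  classical
  rw [← Finset.sum_image (s := univ) (g := a) (f := f) (fun x _ y _ h => ha h)]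
  rw [← Finset.sum_subset (subset_univ (univ.image a))]
  · refine Finset.sum_congr rfl fun j hj => ?_
    have : ∃ l, a l = j := by simpa using hj
    simp [th, this]
  · intro j _ hj
    have : ¬ ∃ l, a l = j := by simpa using hj
    simp [th, this]

lemma th_sq (a : Fin n → ι) (j : ι) : th a j ^ 2 = th a j := by
  unfold th; split_ifs <;> simp

lemma th_nonneg (a : Fin n → ι) (j : ι) : 0 ≤ th a j := by
  unfold th; split_ifs <;> simp

lemma th_le (a : Fin n → ι) (j : ι) : th a j ≤ 1 := by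
  unfold th; split_ifs <;> simp

lemma cone [Fintype ι] [DecidableEq ι] {p : ι → Fin n → ℝ} (hB : Bdd p) :
    ∃ (b : ι → ℝ) (μ : (Fin n → ι) → ℝ), (∀ a, 0 ≤ μ a) ∧ ∑ a, μ a = 1 ∧
      (∀ a, μ a ≠ 0 ↔ Feas p b a) ∧ (∀ a, Feas p b a → ∀ j, p j ⬝ᵥ xb p 1 a ≤ 1) ∧
      (∀ u, ∑ a, μ a * (u ⬝ᵥ xb p 1 a) = 0) ∧
      (∀ u v, ∑ a, μ a * (u ⬝ᵥ xb p 1 a) * (∑ j, th a j * (p j ⬝ᵥ v)) = u ⬝ᵥ v) := by
  obtain ⟨b, hG, hb, hF⟩ := exists_gen p
  obtain ⟨a0, ha0⟩ := exists_feas hB hb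
  have hw : ∀ a, wt p b a ≠ 0 ↔ Feas p b a := by
    intro a
    unfold wt
    split_ifs with h
    · simp [h, h.1]
    · simp [h]
  have hZ : 0 < ∑ a, wt p b a :=
    Finset.sum_pos' (fun a _ => wt_nonneg p b a)
      ⟨a0, mem_univ _, (wt_nonneg p b a0).lt_of_ne' ((hw a0).mpr ha0)⟩
  refine ⟨b, fun a => wt p b a / ∑ a, wt p b a, fun a => div_nonneg (wt_nonneg p b a) hZ.le,
    by rw [← Finset.sum_div, div_self hZ.ne'], fun a => ?_, hF, fun u => ?_, fun u v => ?_⟩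
  · rw [← hw]; simp [hZ.ne']
  · simp only [div_mul_eq_mul_div, ← Finset.sum_div, mean_zero hB hG, zero_div]
  · simp only [div_mul_eq_mul_div, ← Finset.sum_div]
    rw [div_eq_iff hZ.ne', mul_comm (u ⬝ᵥ v), ← div_identity hB hG u v]
    refine Finset.sum_congr rfl fun a _ => ?_
    by_cases h : Feas p b a
    · rw [sum_th (inj_of_D p h.1) (fun j => p j ⬝ᵥ v)]
    · have : wt p b a = 0 := by by_contra h'; exact h ((hw a).mp h')
      simp [this]

lemma cs {α : Type*} [Fintype α] (μ f h : α → ℝ) (hμ : ∀ a, 0 ≤ μ a) :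
    ∑ a, μ a * (f a * h a) ≤ √(∑ a, μ a * f a ^ 2) * √(∑ a, μ a * h a ^ 2) := by
  have := Real.sum_mul_le_sqrt_mul_sqrt univ (fun a => √(μ a) * f a) (fun a => √(μ a) * h a)
  have e1 : ∀ a, √(μ a) * f a * (√(μ a) * h a) = μ a * (f a * h a) := fun a => by
    have := Real.mul_self_sqrt (hμ a)
    calc _ = (√(μ a) * √(μ a)) * (f a * h a) := by ring
      _ = _ := by rw [this]
  simp only [e1, mul_pow, Real.sq_sqrt (hμ _)] at this
  exact this

lemma main_ineq [Fintype ι] (hn : 0 < n) (p : ι → Fin n → ℝ) {R : ℝ} (hR : 0 < R)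
    (hK : ∀ x : Fin n → ℝ, (∀ j, p j ⬝ᵥ x ≤ 1) → x ⬝ᵥ x ≤ R ^ 2) :
    ∃ π : ι → ℝ, (∀ j, 0 ≤ π j) ∧ (∀ j, π j ≤ 1) ∧ ∑ j, π j = n ∧
      n * √n ≤ R * ∑ j, √(p j ⬝ᵥ p j) * √(π j * (1 - π j)) := by
  classical
  obtain ⟨b, μ, hμ, h1, hF, hx, hmean, hdiv⟩ := cone (bdd_of_bound hK)
  obtain ⟨σ, g, hσ, htr, hg0, hg2, hsum, -⟩ := whiten p μ hμ (xb p 1) th hmean hdiv
  have hn' : (0 : ℝ) < n := by exact_mod_cast hn
  have hc : 0 < R ^ 2 / n := by positivity
  have htr' : ∑ k, σ k ≤ n * (R ^ 2 / n) := by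
    rw [htr, mul_div_cancel₀ _ hn'.ne', ← one_mul (R ^ 2), ← h1, Finset.sum_mul]
    refine Finset.sum_le_sum fun a _ => ?_
    by_cases h : μ a = 0
    · simp [h]
    · exact mul_le_mul_of_nonneg_left (hK _ (hx a ((hF a).mp h))) (hμ a)
  have h2 := (sum_inv_sqrt σ hσ hc htr').1
  refine ⟨fun j => ∑ a, μ a * th a j,
    fun j => Finset.sum_nonneg fun a _ => mul_nonneg (hμ a) (th_nonneg a j), fun j => ?_, ?_, ?_⟩
  · rw [← h1]
    exact Finset.sum_le_sum fun a _ => mul_le_of_le_one_right (hμ a) (th_le a j)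
  · rw [Finset.sum_comm, ← one_mul (n : ℝ), ← h1, Finset.sum_mul]
    refine Finset.sum_congr rfl fun a _ => ?_
    rw [← Finset.mul_sum]
    by_cases h : μ a = 0
    · simp [h]
    · have := sum_th (inj_of_D p ((hF a).mp h).1) (fun _ => (1 : ℝ))
      simp only [mul_one, sum_const, card_univ, Fintype.card_fin, nsmul_eq_mul] at this
      rw [this]
  · rw [← hsum, Real.sqrt_div (by positivity), Real.sqrt_sq hR.le] at h2
    have hs : 0 < √(n : ℝ) := Real.sqrt_pos.mpr hn'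
    have h3 : (n : ℝ) / (R / √n) = n * √n / R := by field_simp
    rw [h3, div_le_iff₀ hR, mul_comm _ R] at h2
    refine h2.trans (mul_le_mul_of_nonneg_left (Finset.sum_le_sum fun j _ => ?_) hR.le)
    set π := ∑ a, μ a * th a j with hπ
    have e1 : ∑ a, μ a * (g j a * th a j) = ∑ a, μ a * (g j a * (th a j - π)) := by
      have : ∀ a, μ a * (g j a * (th a j - π)) = μ a * (g j a * th a j) - π * (μ a * g j a) :=
        fun a => by ring
      simp only [this, sum_sub_distrib, ← Finset.mul_sum, hg0, mul_zero, sub_zero]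
    have e2 : ∑ a, μ a * (th a j - π) ^ 2 = π * (1 - π) := by
      have : ∀ a, μ a * (th a j - π) ^ 2 = (1 - 2 * π) * (μ a * th a j) + π ^ 2 * μ a := by
        intro a
        have := th_sq a j
        calc _ = μ a * (th a j ^ 2 - 2 * π * th a j + π ^ 2) := by ring
          _ = _ := by rw [this]; ring
      simp only [this, sum_add_distrib, ← Finset.mul_sum, h1, ← hπ]
      ring
    rw [e1, ← hg2 j, ← e2]
    exact cs μ _ _ hμ

lemma vein_ineq [Fintype ι] (hn : 0 < n) (p : ι → Fin n → ℝ)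
    (hK : ∀ x : Fin n → ℝ, (∀ j, p j ⬝ᵥ x ≤ 1) → x ⬝ᵥ x ≤ 1) :
    2 * (n * √n) ≤ ∑ j, √(p j ⬝ᵥ p j) := by
  obtain ⟨π, h0, h1, -, h⟩ := main_ineq hn p one_pos (by simpa using hK)
  rw [one_mul] at h
  have : ∑ j, √(p j ⬝ᵥ p j) * √(π j * (1 - π j)) ≤ ∑ j, √(p j ⬝ᵥ p j) * (1 / 2) := by
    refine Finset.sum_le_sum fun j _ => mul_le_mul_of_nonneg_left ?_ (Real.sqrt_nonneg _)
    rw [Real.sqrt_le_left (by norm_num)]
    nlinarith [sq_nonneg (π j - 1 / 2)]
  rw [← Finset.sum_mul] at this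
  linarith

end Pool.Agent.H.MP_ccba48_gt
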