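import Mathlib

/-! Facets of a convex polytope, the cube, and the largest norm. -/

namespace Pool.Agent.H.MP_ccba48_gt

/-- A facet of `P` in `ℝ^d`: a nonempty exposed face of affine dimension `d - 1`. -/
def IsFacet {d : ℕ} (P F : Set (EuclideanSpace ℝ (Fin d))) : Prop :=
  IsExposed ℝ P F ∧ F.Nonempty ∧ Module.finrank ℝ (vectorSpan ℝ F) + 1 = d

/-- The cube `[-1, 1]^d`. -/
def cube (d : ℕ) : Set (EuclideanSpace ℝ (Fin d)) := {x | ∀ i, |x i| ≤ 1}

/-- The largest Euclidean norm of a point of `P`. -/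
noncomputable def sigma {d : ℕ} (P : Set (EuclideanSpace ℝ (Fin d))) : ℝ :=
  sSup ((fun x => ‖x‖) '' P)

end Pool.Agent.H.MP_ccba48_gt
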