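import Pool.Agent.H.MP_ccba48_gt.D

/-! Translation to Euclidean space; the cross-polytope. -/

namespace Pool.Agent.H.MP_ccba48_gt
open Finset Matrix Function

variable {n : ℕ}

lemma inner_eq_dot (x y : EuclideanSpace ℝ (Fin n)) : inner ℝ x y = x.ofLp ⬝ᵥ y.ofLp := by
  rw [EuclideanSpace.inner_eq_star_dotProduct, star_trivial, dotProduct_comm]

lemma dot_self_eq (x : EuclideanSpace ℝ (Fin n)) : x.ofLp ⬝ᵥ x.ofLp = ‖x‖ ^ 2 := by
  rw [← inner_eq_dot, real_inner_self_eq_norm_sq]

lemma vein_lower (hn : 0 < n) (P : Finset (EuclideanSpace ℝ (Fin n)))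
    (hP : Metric.closedBall (0 : EuclideanSpace ℝ (Fin n)) 1 ⊆
      convexHull ℝ (↑P : Set (EuclideanSpace ℝ (Fin n)))) :
    2 * (n * √n) ≤ ∑ p ∈ P, ‖p‖ := by
  have := vein_ineq (ι := P) hn (fun j => j.1.ofLp) (by
    intro x hx
    set X : EuclideanSpace ℝ (Fin n) := WithLp.toLp 2 x with hX
    have hxx : x ⬝ᵥ x = ‖X‖ ^ 2 := dot_self_eq X
    rw [hxx]
    by_cases h0 : X = 0
    · simp [h0]
    have hpos : 0 < ‖X‖ := norm_pos_iff.mpr h0
    have hy : ‖X‖⁻¹ • X ∈ Metric.closedBall (0 : EuclideanSpace ℝ (Fin n)) 1 := by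
      simp [norm_smul, hpos.ne']
    have hsub : convexHull ℝ (↑P : Set (EuclideanSpace ℝ (Fin n))) ⊆ {z | inner ℝ X z ≤ 1} := by
      apply convexHull_min
      · intro z hz
        have := hx ⟨z, hz⟩
        rw [Set.mem_ofPred_eq, inner_eq_dot, dotProduct_comm]
        exact this
      · exact convex_halfSpace_le (innerSL ℝ X).toLinearMap.isLinear 1
    have h1 := hsub (hP hy)
    rw [Set.mem_ofPred_eq, inner_smul_right, real_inner_self_eq_norm_sq] at h1
    have h2 : ‖X‖⁻¹ * ‖X‖ ^ 2 = ‖X‖ := by field_simp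
    rw [h2] at h1
    nlinarith)
  simp only [dot_self_eq, Real.sqrt_sq (norm_nonneg _)] at this
  rwa [Finset.sum_coe_sort P (fun p => ‖p‖)] at this

noncomputable def crossPt (n : ℕ) (q : Fin n × Bool) : EuclideanSpace ℝ (Fin n) :=
  EuclideanSpace.single q.1 (if q.2 then √n else -√n)

lemma crossPt_inj (hn : 0 < n) : Injective (crossPt n) := by
  have hs : 0 < √(n : ℝ) := Real.sqrt_pos.mpr (by exact_mod_cast hn)
  rintro ⟨i, s⟩ ⟨j, t⟩ h
  have h1 := congrArg (fun v : EuclideanSpace ℝ (Fin n) => v i) h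
  simp only [crossPt, EuclideanSpace.single_apply, if_true] at h1
  by_cases hij : i = j
  · subst hij
    cases s <;> cases t <;> simp at h1 ⊢ <;> linarith
  · rw [if_neg hij] at h1
    cases s <;> simp at h1 <;> linarith

lemma cross_contains (hn : 0 < n) :
    Metric.closedBall (0 : EuclideanSpace ℝ (Fin n)) 1 ⊆
      convexHull ℝ (Set.range (crossPt n)) := by
  intro x hx
  have hn' : (0 : ℝ) < n := by exact_mod_cast hn
  have hs : 0 < √(n : ℝ) := Real.sqrt_pos.mpr hn'
  have hx1 : ‖x‖ ≤ 1 := by simpa using hx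
  have hl1 : ∑ i, |x i| ≤ √n := by
    have := Real.sum_mul_le_sqrt_mul_sqrt univ (fun i => |x i|) (fun _ => (1 : ℝ))
    simp only [mul_one, sq_abs, one_pow, sum_const, card_univ, Fintype.card_fin, nsmul_eq_mul]
      at this
    have h2 : √(∑ i, x i ^ 2) = ‖x‖ := by rw [EuclideanSpace.norm_eq]; simp
    rw [h2] at this
    nlinarith
  set δ := (1 - (∑ i, |x i|) / √n) / (2 * n) with hδ
  have hδ0 : 0 ≤ δ := by
    have : (∑ i, |x i|) / √n ≤ 1 := (div_le_one hs).mpr hl1
    exact div_nonneg (by linarith) (by positivity)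
  refine mem_convexHull_of_exists_fintype
    (fun q : Fin n × Bool => (|x q.1| + if q.2 then x q.1 else -x q.1) / (2 * √n) + δ)
    (crossPt n) (fun q => ?_) ?_ (fun q => ⟨q, rfl⟩) ?_
  · refine add_nonneg (div_nonneg ?_ (by positivity)) hδ0
    split_ifs
    · linarith [neg_abs_le (x q.1)]
    · linarith [le_abs_self (x q.1)]
  · rw [Fintype.sum_prod_type]
    have : ∀ i : Fin n, ∑ s : Bool, ((|x i| + if s then x i else -x i) / (2 * √n) + δ) =
        |x i| / √n + 2 * δ := by
      intro i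
      simp only [Fintype.sum_bool, if_true, Bool.false_eq_true, if_false]
      field_simp
      ring
    rw [Finset.sum_congr rfl (fun i _ => this i)]
    simp only [sum_add_distrib, ← Finset.sum_div, sum_const, card_univ, Fintype.card_fin,
      nsmul_eq_mul, hδ]
    field_simp
    ring
  · ext l
    rw [Fintype.sum_prod_type]
    simp only [WithLp.ofLp_sum, Finset.sum_apply, Fintype.sum_bool, crossPt, if_true,
      Bool.false_eq_true, if_false, WithLp.ofLp_add, WithLp.ofLp_smul, Pi.add_apply,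
      Pi.smul_apply, EuclideanSpace.single_apply, smul_eq_mul]
    rw [Finset.sum_eq_single l]
    · simp only [if_true]
      field_simp
      ring
    · intro i _ hi
      simp [Ne.symm hi]
    · simp

lemma cross_sum (hn : 0 < n) [DecidableEq (EuclideanSpace ℝ (Fin n))] :
    ∑ p ∈ univ.image (crossPt n), ‖p‖ = 2 * (n * √n) := by
  rw [Finset.sum_image (fun x _ y _ h => crossPt_inj hn h)]
  have : ∀ q : Fin n × Bool, ‖crossPt n q‖ = √n := by
    rintro ⟨i, s⟩
    cases s <;> simp [crossPt]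
  simp only [this, sum_const, card_univ, Fintype.card_prod, Fintype.card_fin, Fintype.card_bool,
    nsmul_eq_mul]
  push_cast
  ring

end Pool.Agent.H.MP_ccba48_gt
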