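import Pool.Agent.H.MP_ccba48_gt.E

/-! The bound `n ^ 2 / k` for `n + k` constraints and its equality case. -/

namespace Pool.Agent.H.MP_ccba48_gt
open Finset Matrix Function

variable {n : ℕ} {ι : Type*}

lemma cap_ineq [Fintype ι] (hn : 0 < n) (p : ι → Fin n → ℝ) {R : ℝ} (hR : 0 < R)
    (hp : ∀ j, p j ⬝ᵥ p j ≤ 1)
    (hK : ∀ x : Fin n → ℝ, (∀ j, p j ⬝ᵥ x ≤ 1) → x ⬝ᵥ x ≤ R ^ 2) :
    (n : ℝ) ^ 2 ≤ R ^ 2 * ((Fintype.card ι : ℝ) - n) := by
  obtain ⟨π, h0, h1, hs, h⟩ := main_ineq hn p hR hK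
  have hn' : (0 : ℝ) < n := by exact_mod_cast hn
  have h2 : ∑ j, √(p j ⬝ᵥ p j) * √(π j * (1 - π j)) ≤ ∑ j, √(π j) * √(1 - π j) := by
    refine Finset.sum_le_sum fun j _ => ?_
    rw [← Real.sqrt_mul (h0 j)]
    exact mul_le_of_le_one_left (Real.sqrt_nonneg _) (Real.sqrt_le_one.mpr (hp j))
  have h3 := Real.sum_mul_le_sqrt_mul_sqrt univ (fun j => √(π j)) (fun j => √(1 - π j))
  simp only [Real.sq_sqrt (h0 _), Real.sq_sqrt (sub_nonneg.mpr (h1 _)), sum_sub_distrib, hs,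
    sum_const, card_univ, nsmul_eq_mul, mul_one] at h3
  have hk : (0 : ℝ) ≤ (Fintype.card ι : ℝ) - n := by
    have : ∑ j, π j ≤ ∑ _j : ι, (1 : ℝ) := Finset.sum_le_sum fun j _ => h1 j
    simp only [hs, sum_const, card_univ, nsmul_eq_mul, mul_one] at this
    linarith
  have hs' : 0 < √(n : ℝ) := Real.sqrt_pos.mpr hn'
  have h4 : n * √n ≤ R * (√n * √((Fintype.card ι : ℝ) - n)) :=
    h.trans (mul_le_mul_of_nonneg_left (h2.trans h3) hR.le)
  have h5 : (n : ℝ) ≤ R * √((Fintype.card ι : ℝ) - n) := by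
    by_contra h6
    have := mul_lt_mul_of_pos_right (not_le.mp h6) hs'
    nlinarith
  have h6 := pow_le_pow_left₀ hn'.le h5 2
  rwa [mul_pow, Real.sq_sqrt hk] at h6

lemma th_update [DecidableEq ι] {a : Fin n → ι} (ha : Injective a) (l : Fin n) (j : ι)
    (hj : ∀ l', a l' ≠ j) (m : ι) :
    th a m - th (update a l j) m = (if m = a l then 1 else 0) - (if m = j then 1 else 0) := by
  unfold th
  by_cases h1 : m = a l
  · subst h1
    have : ¬ ∃ l', update a l j l' = a l := by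
      rintro ⟨l', h⟩
      by_cases hl : l' = l
      · subst hl; rw [update_self] at h; exact hj _ h.symm
      · rw [update_of_ne hl] at h; exact hl (ha h)
    simp [this, hj l]
  · by_cases h2 : m = j
    · subst h2
      have h3 : ¬ ∃ l', a l' = m := by simpa using hj
      have h4 : ∃ l', update a l m l' = m := ⟨l, by simp⟩
      simp [h1, h3, h4]
    · have : (∃ l', update a l j l' = m) ↔ ∃ l', a l' = m := by
        constructor
        · rintro ⟨l', h⟩
          by_cases hl : l' = l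
          · subst hl; rw [update_self] at h; exact absurd h.symm h2
          · rw [update_of_ne hl] at h; exact ⟨l', h⟩
        · rintro ⟨l', h⟩
          have hl : l' ≠ l := by rintro rfl; exact h1 h.symm
          exact ⟨l', by rw [update_of_ne hl, h]⟩
      by_cases h3 : ∃ l', a l' = m <;> simp [h1, h2, this, h3]

lemma partner' [Fintype ι] [DecidableEq ι] {p : ι → Fin n → ℝ} (hB : Bdd p) {b : ι → ℝ}
    {a : Fin n → ι} (ha : Feas p b a) (l : Fin n) :
    ∃ j, (∀ l', a l' ≠ j) ∧ Feas p b (update a l j) := by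
  have ha' : Feas p b (update a l (a l)) := by rwa [update_eq_self]
  obtain ⟨j, hj, hneg⟩ := partner hB ha'
  refine ⟨j, fun l' h => ?_, hj⟩
  by_cases hl : l' = l
  · subst hl; subst h
    exact absurd hneg (not_lt.mpr (mul_self_nonneg _))
  · have := hj.1
    rw [D_update, ← h, p_dot_cof, if_neg hl] at this
    exact this rfl

lemma rigid [Fintype ι] [DecidableEq ι] (hn : 0 < n) (p : ι → Fin n → ℝ) {k : ℕ} (hk : 0 < k)
    (hN : Fintype.card ι = n + k) (hp : ∀ j, p j ⬝ᵥ p j ≤ 1)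
    (hK : ∀ x : Fin n → ℝ, (∀ j, p j ⬝ᵥ x ≤ 1) → x ⬝ᵥ x ≤ (n : ℝ) ^ 2 / k) :
    ∃ a φ : Fin n → ι, Injective a ∧ (∀ l l', a l' ≠ φ l) ∧ (∀ j, p j ⬝ᵥ p j = 1) ∧
      (∀ u v, ∑ j, (u ⬝ᵥ p j) * (p j ⬝ᵥ v) = (n + k) / n * (u ⬝ᵥ v)) ∧
      ∀ l m, p m ⬝ᵥ p (a l) - p m ⬝ᵥ p (φ l) =
        (n + k) / n * ((if m = a l then 1 else 0) - (if m = φ l then 1 else 0)) := by
  have hB := bdd_of_bound hK
  obtain ⟨b, μ, hμ, h1, hF, hx, hmean, hdiv⟩ := cone hB
  obtain ⟨σ, g, hσ, htr, hg0, hg2, hsum, heq⟩ := whiten p μ hμ (xb p 1) th hmean hdiv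
  have hn' : (0 : ℝ) < n := by exact_mod_cast hn
  have hk' : (0 : ℝ) < k := by exact_mod_cast hk
  have hc : (0 : ℝ) < n / k := by positivity
  have htr' : ∑ k, σ k ≤ n * ((n : ℝ) / k) := by
    rw [htr, ← one_mul (n * ((n : ℝ) / k)), ← h1, Finset.sum_mul]
    refine Finset.sum_le_sum fun a _ => ?_
    by_cases h : μ a = 0
    · simp [h]
    · refine mul_le_mul_of_nonneg_left ((hK _ (hx a ((hF a).mp h))).trans (le_of_eq ?_)) (hμ a)
      ring
  obtain ⟨h2, h3⟩ := sum_inv_sqrt σ hσ hc htr'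
  set s := √((n : ℝ) / k) with hs
  have hs0 : 0 < s := Real.sqrt_pos.mpr hc
  have hs2 : s ^ 2 = n / k := Real.sq_sqrt hc.le
  set lam := (n + k) / (k * s) with hlam
  set π0 : ℝ := n / (n + k) with hπ0
  have hterm : ∀ j a, μ a * (g j a - lam * (th a j - π0)) ^ 2 = μ a * g j a ^ 2 -
      2 * lam * (μ a * (g j a * th a j)) + 2 * lam * π0 * (μ a * g j a) +
      lam ^ 2 * ((1 - 2 * π0) * (μ a * th a j) + π0 ^ 2 * μ a) := by
    intro j a
    have := th_sq a j
    calc _ = μ a * g j a ^ 2 - 2 * lam * (μ a * (g j a * th a j)) + 2 * lam * π0 * (μ a * g j a) +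
      lam ^ 2 * (μ a * th a j ^ 2 - 2 * π0 * (μ a * th a j) + π0 ^ 2 * μ a) := by ring
      _ = _ := by rw [this]; ring
  have hth : ∑ j, ∑ a, μ a * th a j = n := by
    rw [Finset.sum_comm, ← one_mul (n : ℝ), ← h1, Finset.sum_mul]
    refine Finset.sum_congr rfl fun a _ => ?_
    rw [← Finset.mul_sum]
    by_cases h : μ a = 0
    · simp [h]
    · have := sum_th (inj_of_D p ((hF a).mp h).1) (fun _ => (1 : ℝ))
      simp only [mul_one, sum_const, card_univ, Fintype.card_fin, nsmul_eq_mul] at this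
      rw [this]
  have htot : ∑ j, ∑ a, μ a * (g j a - lam * (th a j - π0)) ^ 2 =
      ∑ j, p j ⬝ᵥ p j - 2 * lam * ∑ k, 1 / √(σ k) + (n + k) := by
    simp only [hterm, sum_add_distrib, sum_sub_distrib, ← Finset.mul_sum, hg0, hg2, hsum, hth, h1,
      sum_const, card_univ, hN, nsmul_eq_mul]
    have : lam ^ 2 = (n + k) ^ 2 / (k * n) := by
      rw [hlam, div_pow, mul_pow, hs2]; field_simp
    rw [this, hπ0]
    push_cast
    field_simp
    ring
  have hnn : ∀ j ∈ univ, 0 ≤ ∑ a, μ a * (g j a - lam * (th a j - π0)) ^ 2 :=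
    fun j _ => Finset.sum_nonneg fun a _ => mul_nonneg (hμ a) (sq_nonneg _)
  have hlam0 : 0 < lam := by positivity
  have hls : lam * (n / s) = n + k := by
    have : (n : ℝ) = k * s ^ 2 := by rw [hs2]; field_simp
    rw [hlam]
    field_simp
    linarith
  have hpp : ∑ j, p j ⬝ᵥ p j ≤ ∑ _j : ι, (1 : ℝ) := Finset.sum_le_sum fun j _ => hp j
  have hNN : ∑ _j : ι, (1 : ℝ) = n + k := by simp [hN]
  have h0 := Finset.sum_nonneg hnn
  have h4 := mul_le_mul_of_nonneg_left h2 hlam0.le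
  have hσc : ∀ k', σ k' = n / k := by
    apply h3
    by_contra h5
    have := mul_lt_mul_of_pos_left (not_le.mp h5) hlam0
    nlinarith
  have hp1 : ∀ j, p j ⬝ᵥ p j = 1 := fun j =>
    (Finset.sum_eq_sum_iff_of_le (fun j _ => hp j)).mp (by nlinarith) j (mem_univ j)
  have hz : ∀ j a, μ a ≠ 0 → g j a = lam * (th a j - π0) := by
    intro j a ha
    have h5 := (Finset.sum_eq_zero_iff_of_nonneg hnn).mp (by nlinarith) j (mem_univ j)
    have h6 := (Finset.sum_eq_zero_iff_of_nonneg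
      (fun a _ => mul_nonneg (hμ a) (sq_nonneg (g j a - lam * (th a j - π0))))).mp h5 a (mem_univ a)
    have h7 := (mul_eq_zero.mp h6).resolve_left ha
    exact sub_eq_zero.mp (pow_eq_zero_iff two_ne_zero |>.mp h7)
  obtain ⟨hg, hcov⟩ := heq _ hσc
  have hsv : ∀ j a, μ a ≠ 0 → th a j = k / (n + k) * (p j ⬝ᵥ xb p 1 a) + π0 := by
    intro j a ha
    have h5 := hz j a ha
    rw [hg, ← hs, div_eq_iff hs0.ne', hlam] at h5
    rw [h5]
    field_simp
    ring
  have hframe : ∀ u v, ∑ j, (u ⬝ᵥ p j) * (p j ⬝ᵥ v) = (n + k) / n * (u ⬝ᵥ v) := by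
    intro u v
    have h5 := hdiv u v
    have h6 : ∀ a, μ a * (u ⬝ᵥ xb p 1 a) * (∑ j, th a j * (p j ⬝ᵥ v)) =
        ∑ j, (k / (n + k) * (μ a * ((u ⬝ᵥ xb p 1 a) * (p j ⬝ᵥ xb p 1 a))) +
          π0 * (μ a * (u ⬝ᵥ xb p 1 a))) * (p j ⬝ᵥ v) := by
      intro a
      rw [Finset.mul_sum]
      refine Finset.sum_congr rfl fun j _ => ?_
      by_cases h : μ a = 0
      · simp [h]
      · rw [hsv j a h]; ring
    simp only [h6] at h5
    rw [Finset.sum_comm] at h5
    simp only [← Finset.sum_mul, sum_add_distrib, ← Finset.mul_sum, hcov, hmean, mul_zero,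
      add_zero] at h5
    rw [← h5, Finset.mul_sum]
    refine Finset.sum_congr rfl fun j _ => ?_
    field_simp
  obtain ⟨a, ha⟩ : ∃ a, μ a ≠ 0 := by
    by_contra h
    push Not at h
    simp [h] at h1
  have haF := (hF a).mp ha
  choose φ hφ1 hφ2 using partner' hB haF
  refine ⟨a, φ, inj_of_D p haF.1, fun l l' => hφ1 l l', hp1, hframe, fun l m => ?_⟩
  set z := xb p 1 a - xb p 1 (update a l (φ l)) with hzdef
  have hz1 : ∀ m, p m ⬝ᵥ z =
      (n + k) / k * ((if m = a l then 1 else 0) - (if m = φ l then 1 else 0)) := by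
    intro m
    rw [← th_update (inj_of_D p haF.1) l (φ l) (hφ1 l) m, hsv m a ha,
      hsv m _ ((hF _).mpr (hφ2 l)), hzdef, dotProduct_sub]
    field_simp
    ring
  have h5 := hframe (p m) z
  simp only [hz1, mul_sub, mul_ite, mul_one, mul_zero, sum_sub_distrib, Finset.sum_ite_eq',
    mem_univ, if_true] at h5
  have h6 : ((n : ℝ) + k) / k ≠ 0 := by positivity
  apply mul_right_cancel₀ h6
  rw [sub_mul, h5]
  split_ifs <;> ring

end Pool.Agent.H.MP_ccba48_gt
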