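import Pool.Agent.H.MP_ccba48_gt.F
import Pool.Agent.H.MP_ccba48_gt.Defs

/-! A polytope containing the unit ball is cut out by its facet half-spaces. -/

namespace Pool.Agent.H.MP_ccba48_gt
open Finset Matrix Function

variable {n : ℕ} {ι : Type*}

lemma exists_feas_ge [Fintype ι] {p : ι → Fin n → ℝ} (hB : Bdd p) {b : ι → ℝ} {y : Fin n → ℝ}
    (hy : ∀ j, p j ⬝ᵥ y ≤ b j) (z : Fin n → ℝ) :
    ∃ a, Feas p b a ∧ y ⬝ᵥ z ≤ xb p b a ⬝ᵥ z := by
  classical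
  have key : ∀ s : Finset (Fin n), ∃ (M : Matrix (Fin n) (Fin n) ℝ) (x : Fin n → ℝ), M.det ≠ 0 ∧
      (∀ j, p j ⬝ᵥ x ≤ b j) ∧ y ⬝ᵥ z ≤ x ⬝ᵥ z ∧ ∀ k ∈ s, ∃ j, M k = p j ∧ p j ⬝ᵥ x = b j := by
    intro s
    induction s using Finset.induction_on with
    | empty => exact ⟨1, y, by simp, hy, le_rfl, by simp⟩
    | insert m s hm ih =>
      obtain ⟨M, x, hM, hx, hxz, hs⟩ := ih
      have hd : cof M m ≠ 0 := by
        intro h
        have := row_dot_cof M m m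
        rw [h] at this
        simp at this
        exact hM this.symm
      obtain ⟨ε, hε, hεz⟩ : ∃ ε : ℝ, ε ≠ 0 ∧ 0 ≤ ε * (cof M m ⬝ᵥ z) := by
        rcases le_total 0 (cof M m ⬝ᵥ z) with h | h
        · exact ⟨1, one_ne_zero, by linarith⟩
        · exact ⟨-1, by norm_num, by linarith⟩
      obtain ⟨j, τ, hj, hτ, hK, ht⟩ := move hB hx (smul_ne_zero hε hd)
      refine ⟨M.updateRow m (p j), x + τ • ε • cof M m, ?_, hK, ?_, ?_⟩
      · rw [← dot_cof]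
        intro h
        rw [dotProduct_smul, h] at hj
        simp at hj
      · rw [add_dotProduct, smul_dotProduct, smul_dotProduct, smul_eq_mul, smul_eq_mul]
        linarith [mul_nonneg hτ hεz]
      intro k hk
      rcases mem_insert.mp hk with rfl | hk
      · exact ⟨j, by simp, ht⟩
      · obtain ⟨j', h1, h2⟩ := hs k hk
        have hkm : k ≠ m := fun h => hm (h ▸ hk)
        refine ⟨j', by rw [updateRow_ne hkm, h1], ?_⟩
        rw [dotProduct_add, dotProduct_smul, dotProduct_smul, h2, ← h1, row_dot_cof, if_neg hkm]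
        simp
  obtain ⟨M, x, hM, hx, hxz, hs⟩ := key univ
  choose a ha using fun k => hs k (mem_univ k)
  have hMa : Mat p a = M := by ext k l; simp [Mat, (ha k).1]
  have hD : D p a ≠ 0 := by rw [D, hMa]; exact hM
  have := uniq p b hD (fun l => (ha l).2)
  exact ⟨a, ⟨hD, this ▸ hx⟩, this ▸ hxz⟩

lemma hull_le (V : Finset (EuclideanSpace ℝ (Fin n))) {x : Fin n → ℝ}
    (hx : ∀ j : V, j.1.ofLp ⬝ᵥ x ≤ 1) {z : EuclideanSpace ℝ (Fin n)}
    (hz : z ∈ convexHull ℝ (↑V : Set (EuclideanSpace ℝ (Fin n)))) : x ⬝ᵥ z.ofLp ≤ 1 := by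
  have hsub : convexHull ℝ (↑V : Set (EuclideanSpace ℝ (Fin n))) ⊆
      {z | inner ℝ (WithLp.toLp 2 x : EuclideanSpace ℝ (Fin n)) z ≤ 1} := by
    apply convexHull_min
    · intro z hz
      have := hx ⟨z, hz⟩
      rw [Set.mem_ofPred_eq, inner_eq_dot, dotProduct_comm]
      exact this
    · exact convex_halfSpace_le (innerSL ℝ _).toLinearMap.isLinear 1
  have := hsub hz
  rwa [Set.mem_ofPred_eq, inner_eq_dot] at this

lemma polar_bound (V : Finset (EuclideanSpace ℝ (Fin n)))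
    (hP : Metric.closedBall (0 : EuclideanSpace ℝ (Fin n)) 1 ⊆
      convexHull ℝ (↑V : Set (EuclideanSpace ℝ (Fin n)))) (x : Fin n → ℝ)
    (hx : ∀ j : V, j.1.ofLp ⬝ᵥ x ≤ 1) : x ⬝ᵥ x ≤ 1 := by
  set X : EuclideanSpace ℝ (Fin n) := WithLp.toLp 2 x with hX
  have hxx : x ⬝ᵥ x = ‖X‖ ^ 2 := dot_self_eq X
  by_cases h0 : X = 0
  · simp [hxx, h0]
  have hpos : 0 < ‖X‖ := norm_pos_iff.mpr h0
  have hy : ‖X‖⁻¹ • X ∈ Metric.closedBall (0 : EuclideanSpace ℝ (Fin n)) 1 := by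
    simp [norm_smul, hpos.ne']
  have h1 := hull_le V hx (hP hy)
  have h3 : x ⬝ᵥ (‖X‖⁻¹ • X).ofLp = ‖X‖⁻¹ * ‖X‖ ^ 2 := by
    rw [WithLp.ofLp_smul, dotProduct_smul, smul_eq_mul, ← hxx]
  have h2 : ‖X‖⁻¹ * ‖X‖ ^ 2 = ‖X‖ := by field_simp
  rw [h3, h2] at h1
  rw [hxx]
  nlinarith

lemma facet_of_feas (hn : 0 < n) (V : Finset (EuclideanSpace ℝ (Fin n))) {a : Fin n → V}
    (ha : Feas (fun j : V => j.1.ofLp) 1 a) :
    IsFacet (convexHull ℝ (↑V : Set (EuclideanSpace ℝ (Fin n))))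
      {z ∈ convexHull ℝ (↑V : Set (EuclideanSpace ℝ (Fin n))) |
        xb (fun j : V => j.1.ofLp) 1 a ⬝ᵥ z.ofLp = 1} := by
  set x := xb (fun j : V => j.1.ofLp) 1 a with hx
  set X : EuclideanSpace ℝ (Fin n) := WithLp.toLp 2 x with hX
  set P := convexHull ℝ (↑V : Set (EuclideanSpace ℝ (Fin n))) with hP
  have hmem : ∀ l, (a l).1 ∈ {z ∈ P | x ⬝ᵥ z.ofLp = 1} := fun l =>
    ⟨subset_convexHull ℝ _ (a l).2, by rw [dotProduct_comm]; exact tight _ 1 ha.1 l⟩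
  have hin : ∀ z : EuclideanSpace ℝ (Fin n), innerSL ℝ X z = x ⬝ᵥ z.ofLp := fun z =>
    inner_eq_dot X z
  have l0 : Fin n := ⟨0, hn⟩
  refine ⟨fun _ => ⟨innerSL ℝ X, ?_⟩, ⟨_, hmem l0⟩, le_antisymm ?_ ?_⟩
  · ext z
    simp only [Set.mem_ofPred_eq, hin]
    refine and_congr_right fun hz => ⟨fun h y hy => h ▸ hull_le V ha.2 hy, fun h => ?_⟩
    exact le_antisymm (hull_le V ha.2 hz) ((hmem l0).2 ▸ h _ (hmem l0).1)
  · have hne : vectorSpan ℝ {z ∈ P | x ⬝ᵥ z.ofLp = 1} ≠ ⊤ := by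
      intro h
      have hle : vectorSpan ℝ {z ∈ P | x ⬝ᵥ z.ofLp = 1} ≤
          LinearMap.ker (innerSL ℝ X).toLinearMap := by
        rw [vectorSpan_def, Submodule.span_le]
        rintro _ ⟨u, hu, v, hv, rfl⟩
        change innerSL ℝ X (u - v) = 0
        rw [map_sub, hin, hin, hu.2, hv.2, sub_self]
      have h1 : innerSL ℝ X (a l0).1 = 0 := hle (h ▸ Submodule.mem_top)
      rw [hin, (hmem l0).2] at h1
      exact one_ne_zero h1
    have := Submodule.finrank_lt hne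
    rw [finrank_euclideanSpace_fin] at this
    omega
  · have hli : LinearIndependent ℝ (fun l => (a l).1) := by
      have h1 : LinearIndependent ℝ (Mat (fun j : V => j.1.ofLp) a).row :=
        linearIndependent_rows_iff_isUnit.mpr
          ((isUnit_iff_isUnit_det _).mpr (isUnit_iff_ne_zero.mpr ha.1))
      exact LinearIndependent.of_comp (WithLp.linearEquiv 2 ℝ (Fin n → ℝ)).toLinearMap h1
    have h2 := hli.affineIndependent.finrank_vectorSpan (n := n - 1) (by simp; omega)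
    have h3 : vectorSpan ℝ (Set.range fun l => (a l).1) ≤ vectorSpan ℝ {z ∈ P | x ⬝ᵥ z.ofLp = 1} :=
      vectorSpan_mono ℝ (by rintro _ ⟨l, rfl⟩; exact hmem l)
    have := Submodule.finrank_mono h3
    omega

/-- The polytope is cut out by at most as many half-spaces as it has facets. -/
lemma halfspaces (hn : 0 < n) (V : Finset (EuclideanSpace ℝ (Fin n)))
    (hP : Metric.closedBall (0 : EuclideanSpace ℝ (Fin n)) 1 ⊆
      convexHull ℝ (↑V : Set (EuclideanSpace ℝ (Fin n))))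
    (hfin : {F | IsFacet (convexHull ℝ (↑V : Set (EuclideanSpace ℝ (Fin n)))) F}.Finite) :
    ∃ X : Finset (Fin n → ℝ),
      X.card ≤ {F | IsFacet (convexHull ℝ (↑V : Set (EuclideanSpace ℝ (Fin n)))) F}.ncard ∧
      (∀ x ∈ X, x ⬝ᵥ x ≤ 1) ∧
      ∀ z, z ∈ convexHull ℝ (↑V : Set (EuclideanSpace ℝ (Fin n))) ↔ ∀ x ∈ X, x ⬝ᵥ z.ofLp ≤ 1 := by
  classical
  set p : V → Fin n → ℝ := fun j => j.1.ofLp with hp
  set P := convexHull ℝ (↑V : Set (EuclideanSpace ℝ (Fin n))) with hPdef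
  have hB : Bdd p := bdd_of_bound (polar_bound V hP)
  have hmem : ∀ x, x ∈ (univ.filter (Feas p 1)).image (xb p 1) ↔ ∃ a, Feas p 1 a ∧ xb p 1 a = x := by
    intro x; simp
  refine ⟨(univ.filter (Feas p 1)).image (xb p 1), ?_, fun x hx => ?_, fun z => ⟨fun hz x hx => ?_,
    fun h => ?_⟩⟩
  · rw [← Set.ncard_coe_finset]
    refine Set.ncard_le_ncard_of_injOn (fun x => {z ∈ P | x ⬝ᵥ z.ofLp = 1}) (fun x hx => ?_)
      (fun x hx x' hx' h => ?_) hfin
    · obtain ⟨a, ha, rfl⟩ := (hmem x).mp hx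
      exact facet_of_feas hn V ha
    · obtain ⟨a, ha, rfl⟩ := (hmem x).mp hx
      refine (uniq p 1 ha.1 fun l => ?_).symm
      have h1 : (a l).1 ∈ {z ∈ P | xb p 1 a ⬝ᵥ z.ofLp = 1} :=
        ⟨subset_convexHull ℝ _ (a l).2, by rw [dotProduct_comm]; exact tight _ 1 ha.1 l⟩
      have h2 : (a l).1 ∈ {z ∈ P | x' ⬝ᵥ z.ofLp = 1} := by
        have h' : {z ∈ P | xb p 1 a ⬝ᵥ z.ofLp = 1} = {z ∈ P | x' ⬝ᵥ z.ofLp = 1} := h
        rw [← h']; exact h1
      rw [dotProduct_comm]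
      exact h2.2
  · obtain ⟨a, ha, rfl⟩ := (hmem x).mp hx
    exact polar_bound V hP _ ha.2
  · obtain ⟨a, ha, rfl⟩ := (hmem x).mp hx
    exact hull_le V ha.2 hz
  · by_contra hz
    obtain ⟨f, u, hf, hu⟩ := geometric_hahn_banach_closed_point (convex_convexHull ℝ _)
      (V.finite_toSet.isClosed_convexHull ℝ) hz
    have hu0 : 0 < u := by simpa using hf 0 (hP (by simp))
    set y := (InnerProductSpace.toDual ℝ (EuclideanSpace ℝ (Fin n))).symm f with hy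
    have hfy : ∀ w, f w = y.ofLp ⬝ᵥ w.ofLp := fun w => by
      rw [← inner_eq_dot, hy, InnerProductSpace.toDual_symm_apply]
    have hyK : ∀ j, p j ⬝ᵥ (u⁻¹ • y.ofLp) ≤ (1 : V → ℝ) j := by
      intro j
      have := hf j.1 (subset_convexHull ℝ _ j.2)
      rw [hfy, dotProduct_comm] at this
      rw [dotProduct_smul, smul_eq_mul, Pi.one_apply, inv_mul_le_iff₀ hu0, mul_one]
      exact this.le
    obtain ⟨a, ha, hge⟩ := exists_feas_ge hB hyK z.ofLp
    have h1 := h _ ((hmem _).mpr ⟨a, ha, rfl⟩)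
    rw [smul_dotProduct, smul_eq_mul, ← hfy] at hge
    have h2 : 1 < u⁻¹ * f z := by rw [lt_inv_mul_iff₀ hu0, mul_one]; exact hu
    linarith

end Pool.Agent.H.MP_ccba48_gt
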