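import Pool.Agent.H.MP_ccba48_gt.G

/-! The ball-and-cube theorem. -/

namespace Pool.Agent.H.MP_ccba48_gt
open Finset Matrix Function

variable {n : ℕ} {ι : Type*}

lemma cube_of_rigid [Fintype ι] [DecidableEq ι] (hn : 0 < n) (p : ι → Fin n → ℝ)
    (hN : Fintype.card ι = n + n) (hp : ∀ j, p j ⬝ᵥ p j ≤ 1)
    (hK : ∀ x : Fin n → ℝ, (∀ j, p j ⬝ᵥ x ≤ 1) → x ⬝ᵥ x ≤ n) :
    ∃ f : EuclideanSpace ℝ (Fin n) ≃ᵢ EuclideanSpace ℝ (Fin n),
      f '' cube n = {z | ∀ j, p j ⬝ᵥ z.ofLp ≤ 1} := by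
  have hn' : (0 : ℝ) < n := by exact_mod_cast hn
  obtain ⟨a, φ, ha, hφ, h1, -, h2⟩ := rigid hn p hn hN hp (by
    intro x hx
    have : (n : ℝ) ^ 2 / n = n := by field_simp
    rw [this]; exact hK x hx)
  have h22 : ((n : ℝ) + n) / n = 2 := by field_simp; ring
  rw [h22] at h2
  have hneg : ∀ l, p (φ l) = -p (a l) := by
    intro l
    have h3 := h2 l (a l)
    rw [if_pos rfl, if_neg (hφ l l), h1] at h3
    have h4 : (p (φ l) + p (a l)) ⬝ᵥ (p (φ l) + p (a l)) = 0 := by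
      rw [add_dotProduct, dotProduct_add, dotProduct_add, h1, h1, dotProduct_comm (p (φ l))]
      linarith
    exact eq_neg_of_add_eq_zero_left (dotProduct_self_eq_zero.mp h4)
  have horth : ∀ l m, m ≠ a l → m ≠ φ l → p m ⬝ᵥ p (a l) = 0 := by
    intro l m h3 h4
    have := h2 l m
    rw [if_neg h3, if_neg h4, hneg, dotProduct_neg] at this
    linarith
  have : Nonempty (Fin n) := ⟨⟨0, hn⟩⟩
  have hon : Orthonormal ℝ (fun l => (WithLp.toLp 2 (p (a l)) : EuclideanSpace ℝ (Fin n))) := by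
    rw [orthonormal_iff_ite]
    intro l l'
    rw [inner_eq_dot]
    split_ifs with h
    · subst h; exact h1 _
    · exact horth l' _ (fun h' => h (ha h')) (hφ l' l)
  let B : OrthonormalBasis (Fin n) ℝ (EuclideanSpace ℝ (Fin n)) :=
    (basisOfOrthonormalOfCardEqFinrank hon (by simp)).toOrthonormalBasis (by simpa using hon)
  have hB : ∀ l, B l = WithLp.toLp 2 (p (a l)) := fun l => by simp [B]
  have hrepr : ∀ z l, B.repr z l = p (a l) ⬝ᵥ z.ofLp := fun z l => by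
    rw [B.repr_apply_apply, hB, inner_eq_dot]
  refine ⟨B.repr.symm.toIsometryEquiv, ?_⟩
  ext z
  constructor
  · rintro ⟨w, hw, rfl⟩ j
    have hw' : ∀ l, |p (a l) ⬝ᵥ (B.repr.symm w).ofLp| ≤ 1 := fun l => by
      rw [← hrepr, LinearIsometryEquiv.apply_symm_apply]; exact hw l
    change p j ⬝ᵥ (B.repr.symm w).ofLp ≤ 1
    by_cases h3 : ∃ l, j = a l
    · obtain ⟨l, rfl⟩ := h3
      exact (abs_le.mp (hw' l)).2
    by_cases h4 : ∃ l, j = φ l
    · obtain ⟨l, rfl⟩ := h4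
      rw [hneg, neg_dotProduct]
      linarith [(abs_le.mp (hw' l)).1]
    push Not at h3 h4
    exfalso
    have h5 : B.repr (WithLp.toLp 2 (p j)) = 0 := by
      ext l
      rw [hrepr, dotProduct_comm]
      exact horth l j (h3 l) (h4 l)
    have h6 : p j = 0 := by simpa using h5
    have := h1 j
    rw [h6] at this
    simp at this
  · intro hz
    refine ⟨B.repr z, fun l => ?_, by simp⟩
    rw [hrepr, abs_le]
    have := hz (φ l)
    rw [hneg, neg_dotProduct] at this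
    exact ⟨by linarith, hz (a l)⟩

lemma sigma_of_cube (f : EuclideanSpace ℝ (Fin n) ≃ᵢ EuclideanSpace ℝ (Fin n))
    (hB : Metric.closedBall (0 : EuclideanSpace ℝ (Fin n)) 1 ⊆ f '' cube n) :
    sigma (f '' cube n) = √n := by
  have hc : f.symm 0 = 0 := by
    ext i
    have key : ∀ ε : ℝ, |ε| = 1 → |f.symm 0 i + ε| ≤ 1 := by
      intro ε hε
      have h1 : f (f.symm 0 + EuclideanSpace.single i ε) ∈
          Metric.closedBall (0 : EuclideanSpace ℝ (Fin n)) 1 := by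
        rw [Metric.mem_closedBall]
        conv_lhs => rw [← f.apply_symm_apply 0]
        rw [f.dist_eq, dist_eq_norm]
        simp [hε]
      obtain ⟨w, hw, hw'⟩ := hB h1
      have := hw i
      rw [f.injective hw'] at this
      simpa using this
    have h1 := abs_le.mp (key 1 (by simp))
    have h2 := abs_le.mp (key (-1) (by simp))
    simp only [PiLp.zero_apply]
    linarith [h1.2, h2.1]
  have h0 : f 0 = 0 := by rw [← hc, f.apply_symm_apply]; exact hc.symm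
  have hnorm : ∀ w, ‖f w‖ = ‖w‖ := fun w => by
    rw [← dist_zero_right, ← dist_zero_right w, ← f.dist_eq w 0, h0]
  apply IsGreatest.csSup_eq
  constructor
  · refine ⟨f (WithLp.toLp 2 fun _ => 1), ⟨_, fun i => by simp, rfl⟩, ?_⟩
    simp only [hnorm, EuclideanSpace.norm_eq]
    simp
  · rintro _ ⟨_, ⟨w, hw, rfl⟩, rfl⟩
    simp only [hnorm, EuclideanSpace.norm_eq]
    apply Real.sqrt_le_sqrt
    calc ∑ i, ‖w i‖ ^ 2 ≤ ∑ _i : Fin n, (1 : ℝ) :=
          Finset.sum_le_sum fun i _ => pow_le_one₀ (norm_nonneg _) (hw i)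
      _ = n := by simp

theorem ball_cube (d : ℕ) (hd : 1 ≤ d) (V : Finset (EuclideanSpace ℝ (Fin d)))
    (P : Set (EuclideanSpace ℝ (Fin d))) (hP : P = convexHull ℝ (↑V : Set (EuclideanSpace ℝ (Fin d))))
    (hF : {F | IsFacet P F}.ncard = 2 * d)
    (hB : Metric.closedBall (0 : EuclideanSpace ℝ (Fin d)) 1 ⊆ P) :
    √d ≤ sigma P ∧ (sigma P = √d ↔
      ∃ f : EuclideanSpace ℝ (Fin d) ≃ᵢ EuclideanSpace ℝ (Fin d), f '' cube d = P) := by
  classical
  subst hP
  set P := convexHull ℝ (↑V : Set (EuclideanSpace ℝ (Fin d))) with hPdef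
  have hd' : (0 : ℝ) < d := by exact_mod_cast hd
  obtain ⟨X, hcard, hX1, hX⟩ := halfspaces hd V hB (Set.finite_of_ncard_ne_zero (by
    rw [hF]; omega))
  rw [hF] at hcard
  have hbdd : BddAbove ((fun x => ‖x‖) '' P) :=
    ((V.finite_toSet.isCompact_convexHull ℝ).image continuous_norm).bddAbove
  have hle : ∀ z ∈ P, ‖z‖ ≤ sigma P := fun z hz => le_csSup hbdd ⟨z, hz, rfl⟩
  have hpos : 0 < sigma P := by
    have := hle (EuclideanSpace.single ⟨0, hd⟩ 1) (hB (by simp))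
    simp at this
    linarith
  have hK : ∀ x : Fin d → ℝ, (∀ j : X, j.1 ⬝ᵥ x ≤ 1) → x ⬝ᵥ x ≤ sigma P ^ 2 := by
    intro x hx
    have h1 := hle (WithLp.toLp 2 x) ((hX _).mpr fun y hy => hx ⟨y, hy⟩)
    have h2 : x ⬝ᵥ x = ‖(WithLp.toLp 2 x : EuclideanSpace ℝ (Fin d))‖ ^ 2 := dot_self_eq _
    rw [h2]
    exact pow_le_pow_left₀ (norm_nonneg _) h1 2
  have hineq := cap_ineq (ι := X) hd (fun j => j.1) hpos (fun j => hX1 _ j.2) hK
  rw [Fintype.card_coe] at hineq
  have hc' : (X.card : ℝ) ≤ 2 * d := by exact_mod_cast hcard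
  refine ⟨?_, fun h => ?_, ?_⟩
  · rw [Real.sqrt_le_left hpos.le]
    have h1 : (d : ℝ) ^ 2 ≤ sigma P ^ 2 * d :=
      hineq.trans (mul_le_mul_of_nonneg_left (by linarith) (sq_nonneg _))
    by_contra h2
    have := mul_lt_mul_of_pos_right (not_le.mp h2) hd'
    nlinarith
  · rw [h, Real.sq_sqrt hd'.le] at hineq hK
    have h1 : (2 * d : ℝ) ≤ X.card := by
      by_contra h2
      have := mul_lt_mul_of_pos_left (not_le.mp h2) hd'
      nlinarith
    have h2 : 2 * d ≤ X.card := by exact_mod_cast h1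
    obtain ⟨f, hf⟩ := cube_of_rigid (ι := X) hd (fun j => j.1) (by rw [Fintype.card_coe]; omega)
      (fun j => hX1 _ j.2) hK
    refine ⟨f, hf.trans ?_⟩
    ext z
    rw [hX]
    simp
  · rintro ⟨f, hf⟩
    rw [← hf] at hB ⊢
    exact sigma_of_cube f hB

end Pool.Agent.H.MP_ccba48_gt
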