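import Pool.Agent.H.MP_ccba48_gt.F

/-! Optimal coverings by `2n` caps come from cross-polytopes. -/

namespace Pool.Agent.H.MP_ccba48_gt
open Finset Matrix Function

variable {n : ℕ} {ι : Type*}

lemma cross_of_rigid [Fintype ι] [DecidableEq ι] (hn : 0 < n) (p : ι → Fin n → ℝ)
    (hN : Fintype.card ι = n + n) (hp : ∀ j, p j ⬝ᵥ p j ≤ 1)
    (hK : ∀ x : Fin n → ℝ, (∀ j, p j ⬝ᵥ x ≤ 1) → x ⬝ᵥ x ≤ n) :
    ∃ (B : OrthonormalBasis (Fin n) ℝ (EuclideanSpace ℝ (Fin n))) (a φ : Fin n → ι),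
      (∀ l, B l = WithLp.toLp 2 (p (a l))) ∧ (∀ l, p (φ l) = -p (a l)) ∧
      ∀ j, (∃ l, j = a l) ∨ (∃ l, j = φ l) := by
  have hn' : (0 : ℝ) < n := by exact_mod_cast hn
  obtain ⟨a, φ, ha, hφ, h1, -, h2⟩ := rigid hn p hn hN hp (by
    intro x hx
    have : (n : ℝ) ^ 2 / n = n := by field_simp
    rw [this]; exact hK x hx)
  have h22 : ((n : ℝ) + n) / n = 2 := by field_simp; ring
  rw [h22] at h2
  have hneg : ∀ l, p (φ l) = -p (a l) := by
    intro l
    have h3 := h2 l (a l)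
    rw [if_pos rfl, if_neg (hφ l l), h1] at h3
    have h4 : (p (φ l) + p (a l)) ⬝ᵥ (p (φ l) + p (a l)) = 0 := by
      rw [add_dotProduct, dotProduct_add, dotProduct_add, h1, h1, dotProduct_comm (p (φ l))]
      linarith
    exact eq_neg_of_add_eq_zero_left (dotProduct_self_eq_zero.mp h4)
  have horth : ∀ l m, m ≠ a l → m ≠ φ l → p m ⬝ᵥ p (a l) = 0 := by
    intro l m h3 h4
    have := h2 l m
    rw [if_neg h3, if_neg h4, hneg, dotProduct_neg] at this
    linarith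
  have : Nonempty (Fin n) := ⟨⟨0, hn⟩⟩
  have hon : Orthonormal ℝ (fun l => (WithLp.toLp 2 (p (a l)) : EuclideanSpace ℝ (Fin n))) := by
    rw [orthonormal_iff_ite]
    intro l l'
    rw [inner_eq_dot]
    split_ifs with h
    · subst h; exact h1 _
    · exact horth l' _ (fun h' => h (ha h')) (hφ l' l)
  let B : OrthonormalBasis (Fin n) ℝ (EuclideanSpace ℝ (Fin n)) :=
    (basisOfOrthonormalOfCardEqFinrank hon (by simp)).toOrthonormalBasis (by simpa using hon)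
  have hB : ∀ l, B l = WithLp.toLp 2 (p (a l)) := fun l => by simp [B]
  have hrepr : ∀ z l, B.repr z l = p (a l) ⬝ᵥ z.ofLp := fun z l => by
    rw [B.repr_apply_apply, hB, inner_eq_dot]
  refine ⟨B, a, φ, hB, hneg, fun j => ?_⟩
  by_contra hj
  push Not at hj
  obtain ⟨h3, h4⟩ := hj
  have h5 : B.repr (WithLp.toLp 2 (p j)) = 0 := by
    ext l
    rw [hrepr, dotProduct_comm]
    exact horth l j (h3 l) (h4 l)
  have h6 : p j = 0 := by simpa using h5
  have := h1 j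
  rw [h6] at this
  simp at this

/-- Every unit vector has a coordinate of absolute value at least `1 / √n`. -/
lemma exists_big_coord (hn : 0 < n) (y : EuclideanSpace ℝ (Fin n)) (hy : ‖y‖ = 1) :
    ∃ i, 1 / √n ≤ |y i| := by
  have hn' : (0 : ℝ) < n := by exact_mod_cast hn
  by_contra h
  push Not at h
  have : Nonempty (Fin n) := ⟨⟨0, hn⟩⟩
  have h1 : ∑ i, y i ^ 2 < ∑ _i : Fin n, (1 / n : ℝ) := by
    apply Finset.sum_lt_sum_of_nonempty Finset.univ_nonempty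
    intro i _
    have h2 := pow_lt_pow_left₀ (h i) (abs_nonneg _) two_ne_zero
    rwa [sq_abs, div_pow, Real.sq_sqrt hn'.le, one_pow] at h2
  have h2 : ‖y‖ ^ 2 = ∑ i, y i ^ 2 := by
    rw [EuclideanSpace.norm_sq_eq]; simp
  rw [← h2, hy] at h1
  simp [hn'.ne'] at h1

/-- A covering by caps of height `t` bounds the polar body. -/
lemma polar_of_cover {t : ℝ} (ht : 0 < t) (f : ι → EuclideanSpace ℝ (Fin n))
    (hf : ∀ y : EuclideanSpace ℝ (Fin n), ‖y‖ = 1 → ∃ i, t ≤ inner ℝ (f i) y)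
    (x : Fin n → ℝ) (hx : ∀ j, (f j).ofLp ⬝ᵥ x ≤ 1) : x ⬝ᵥ x ≤ 1 / t ^ 2 := by
  set X : EuclideanSpace ℝ (Fin n) := WithLp.toLp 2 x with hX
  have hxx : x ⬝ᵥ x = ‖X‖ ^ 2 := dot_self_eq X
  rw [hxx]
  by_cases h0 : X = 0
  · simp [h0]; positivity
  have hpos : 0 < ‖X‖ := norm_pos_iff.mpr h0
  obtain ⟨i, hi⟩ := hf (‖X‖⁻¹ • X) (by simp [norm_smul, hpos.ne'])
  rw [inner_smul_right, inner_eq_dot] at hi
  have h1 : t ≤ ‖X‖⁻¹ := by
    have := mul_le_mul_of_nonneg_left (hx i) (inv_pos.mpr hpos).le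
    rw [mul_one] at this
    exact hi.trans this
  have h2 : ‖X‖ ≤ 1 / t := by
    rw [le_div_iff₀ ht]
    have := mul_le_mul_of_nonneg_left h1 hpos.le
    rwa [mul_inv_cancel₀ hpos.ne'] at this
  have := pow_le_pow_left₀ hpos.le h2 2
  rwa [div_pow, one_pow] at this

end Pool.Agent.H.MP_ccba48_gt
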