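import Pool.Agent.H.MP_ccba48_gt.L

/-! Orthogonal sums of regular simplices. -/

namespace Pool.Agent.H.MP_ccba48_gt
open Finset Matrix Function

variable {n : ℕ} {ι κ : Type*}

lemma gram_bound [Fintype ι] [Fintype κ] [DecidableEq ι] [DecidableEq κ] (p : ι → Fin n → ℝ)
    (f : ι → κ) (d : κ → ℕ) (hd : ∀ t, 1 ≤ d t)
    (hcard : ∀ t, (univ.filter fun i => f i = t).card = d t + 1) (hsum : ∑ t, d t = n)
    (hG : ∀ i j, p i ⬝ᵥ p j = if i = j then 1 else if f i = f j then -1 / (d (f i) : ℝ) else 0)
    (x : Fin n → ℝ) (hx : ∀ j, p j ⬝ᵥ x ≤ 1) : x ⬝ᵥ x ≤ ∑ t, (d t : ℝ) ^ 2 := by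
  have hd' : ∀ t, (0 : ℝ) < d t := fun t => by exact_mod_cast hd t
  have hG' : ∀ i j, p i ⬝ᵥ p j = (if i = j then 1 + 1 / (d (f i) : ℝ) else 0) -
      if f i = f j then 1 / (d (f i) : ℝ) else 0 := by
    intro i j
    rw [hG]
    by_cases h : i = j
    · subst h; simp
    · by_cases h' : f i = f j <;> simp [h, h', neg_div]
  have hfib : ∀ (g : κ → ℝ) (t : κ), ∑ i with f i = t, g (f i) = (d t + 1) * g t := by
    intro g t
    rw [Finset.sum_congr rfl (g := fun _ => g t) (fun i hi => by rw [(mem_filter.mp hi).2]),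
      sum_const, hcard, nsmul_eq_mul]
    push_cast; ring
  have hrow : ∀ j t, p j ⬝ᵥ ∑ i with f i = t, p i = 0 := by
    intro j t
    rw [dotProduct_sum]
    simp only [hG', sum_sub_distrib, sum_ite_eq, mem_filter, mem_univ, true_and]
    have := hfib (fun s => if f j = s then 1 / (d (f j) : ℝ) else 0) t
    rw [this]
    split_ifs with h
    · subst h
      have := hd' (f j)
      field_simp; ring
    · simp
  have hs : ∀ t, ∑ i with f i = t, p i = 0 := by
    intro t
    rw [← dotProduct_self_eq_zero, sum_dotProduct]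
    exact Finset.sum_eq_zero fun j _ => hrow j t
  set c : κ → ℝ := fun t => d t / (d t + 1) with hc
  set T : Matrix (Fin n) (Fin n) ℝ := ∑ i, c (f i) • vecMulVec (p i) (p i) with hT
  have hTv : ∀ v, T *ᵥ v = ∑ i, (c (f i) * (p i ⬝ᵥ v)) • p i := by
    intro v
    rw [hT, Matrix.sum_mulVec]
    refine Finset.sum_congr rfl fun i _ => ?_
    rw [Matrix.smul_mulVec, vecMulVec_mulVec, op_smul_eq_smul, smul_smul]
  have hTp : ∀ j, T *ᵥ p j = p j := by
    intro j
    rw [hTv]
    have h1 : ∀ i, (c (f i) * (p i ⬝ᵥ p j)) • p i = (if i = j then p i else 0) -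
        if f i = f j then (c (f j) / d (f j)) • p i else 0 := by
      intro i
      rw [hG', mul_sub, sub_smul]
      have := hd' (f i)
      congr 1
      · split_ifs
        · have h : c (f i) * (1 + 1 / (d (f i) : ℝ)) = 1 := by simp only [hc]; field_simp
          rw [h, one_smul]
        · simp
      · split_ifs with h
        · rw [← h, mul_one_div]
        · simp
    simp only [h1, sum_sub_distrib, sum_ite_eq', mem_univ, if_true]
    rw [← Finset.sum_filter, ← Finset.smul_sum, hs, smul_zero, sub_zero]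
  have hTT : T * T = T := by
    conv_lhs => rw [hT, Matrix.mul_sum]
    conv_rhs => rw [hT]
    refine Finset.sum_congr rfl fun i _ => ?_
    rw [Matrix.mul_smul, ← hT, mul_vecMulVec, hTp]
  have hTt : Tᴴ = T := by
    ext a b
    simp [hT, Matrix.sum_apply, vecMulVec_apply, mul_comm]
  have htr : T.trace = n := by
    rw [hT, trace_sum]
    simp only [trace_smul, trace_vecMulVec, hG, if_true, smul_eq_mul, mul_one]
    rw [← Finset.sum_fiberwise univ f, ← hsum]
    push_cast
    refine Finset.sum_congr rfl fun t _ => ?_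
    rw [hfib]
    have := hd' t
    simp only [hc]; field_simp
  have hT1 : T = 1 := by
    have h : ((1 - T)ᴴ * (1 - T)).trace = 0 := by
      rw [conjTranspose_sub, conjTranspose_one, hTt, Matrix.sub_mul, Matrix.mul_sub, Matrix.mul_sub,
        hTT]
      simp [trace_sub, htr]
    exact (sub_eq_zero.mp (trace_conjTranspose_mul_self_eq_zero_iff.mp h)).symm
  have hxx : x ⬝ᵥ x = ∑ i, c (f i) * (p i ⬝ᵥ x) ^ 2 := by
    have := hTv x
    rw [hT1, one_mulVec] at this
    conv_lhs => rw [this, sum_dotProduct]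
    refine Finset.sum_congr rfl fun i _ => ?_
    rw [smul_dotProduct, smul_eq_mul, ← this]; ring
  rw [hxx, ← Finset.sum_fiberwise univ f]
  refine Finset.sum_le_sum fun t _ => ?_
  have h0 : ∑ i with f i = t, p i ⬝ᵥ x = 0 := by rw [← sum_dotProduct, hs, zero_dotProduct]
  have h1 : ∑ i with f i = t, (1 - p i ⬝ᵥ x) = d t + 1 := by
    rw [sum_sub_distrib, h0, sum_const, hcard]; simp
  have h2 : ∀ i ∈ univ.filter fun i => f i = t, c (f i) * (p i ⬝ᵥ x) ^ 2 ≤
      c t * d t - c t * (d t - 1) * (p i ⬝ᵥ x) := by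
    intro i hi
    have h3 := Finset.single_le_sum (f := fun i => 1 - p i ⬝ᵥ x)
      (fun j _ => sub_nonneg.mpr (hx j)) hi
    rw [h1] at h3
    rw [(mem_filter.mp hi).2]
    have h4 : 0 ≤ c t := by have := hd' t; simp only [hc]; positivity
    have h5 : 0 ≤ (1 - p i ⬝ᵥ x) * (p i ⬝ᵥ x + d t) :=
      mul_nonneg (sub_nonneg.mpr (hx i)) (by linarith)
    nlinarith [mul_nonneg h4 h5]
  refine (Finset.sum_le_sum h2).trans (le_of_eq ?_)
  rw [sum_sub_distrib, sum_const, ← Finset.mul_sum, h0, hcard, nsmul_eq_mul]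
  have := hd' t
  simp only [hc]; push_cast; field_simp; ring

lemma exists_gram {k : ℕ} (g : Fin n → Fin k) (d : Fin k → ℕ) (hd : ∀ t, 1 ≤ d t)
    (hcard : ∀ t, (univ.filter fun l => g l = t).card = d t) :
    ∃ p : Fin n ⊕ Fin k → Fin n → ℝ, ∀ i j, p i ⬝ᵥ p j = if i = j then 1 else
      if Sum.elim g id i = Sum.elim g id j then -1 / (d (Sum.elim g id i) : ℝ) else 0 := by
  have hd' : ∀ t, (0 : ℝ) < d t := fun t => by exact_mod_cast hd t
  let α : Fin k → ℝ := fun t => √((d t + 1) / d t)
  let γ : Fin k → ℝ := fun t => √(1 / d t)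
  let β : Fin k → ℝ := fun t => (γ t - α t) / d t
  have hα : ∀ t, α t ^ 2 = (d t + 1) / d t := fun t => Real.sq_sqrt (by have := hd' t; positivity)
  have hγ : ∀ t, γ t ^ 2 = 1 / d t := fun t => Real.sq_sqrt (by have := hd' t; positivity)
  have hβ : ∀ t, d t * β t = γ t - α t := fun t => by have := hd' t; simp only [β]; field_simp
  let u : Fin k → Fin n → ℝ := fun t m => if g m = t then 1 else 0
  have huu : ∀ t t', u t ⬝ᵥ u t' = if t = t' then (d t : ℝ) else 0 := by
    intro t t'
    simp only [u, dotProduct]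
    split_ifs with h
    · subst h
      rw [← hcard, Finset.card_filter]
      push_cast
      exact Finset.sum_congr rfl fun m _ => by split_ifs <;> simp
    · refine Finset.sum_eq_zero fun m _ => ?_
      split_ifs with h1 h2
      · exact absurd (h1.symm.trans h2) h
      all_goals simp
  have heu : ∀ l t, Pi.single l (1 : ℝ) ⬝ᵥ u t = if g l = t then 1 else 0 := by
    intro l t; simp [u]
  have hue : ∀ l t, u t ⬝ᵥ Pi.single l (1 : ℝ) = if g l = t then 1 else 0 := by
    intro l t; simp [u]
  have hee : ∀ l l' : Fin n, Pi.single l (1 : ℝ) ⬝ᵥ Pi.single l' (1 : ℝ) =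
      if l = l' then 1 else 0 := by
    intro l l'; simp [Pi.single_apply, eq_comm]
  have hab : ∀ t, 2 * α t * β t + d t * β t ^ 2 = -1 / d t := by
    intro t
    have := hd' t
    have h1 : d t * (2 * α t * β t + d t * β t ^ 2) = γ t ^ 2 - α t ^ 2 := by
      have : d t * (2 * α t * β t + d t * β t ^ 2) =
          2 * α t * (d t * β t) + (d t * β t) ^ 2 := by ring
      rw [this, hβ]; ring
    rw [hα, hγ] at h1
    have h2 : 1 / (d t : ℝ) - (d t + 1) / d t = -1 := by field_simp; ring
    rw [eq_div_iff this.ne']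
    linarith
  have hcross : ∀ t, -γ t * (α t + d t * β t) = -1 / d t := by
    intro t
    rw [hβ, neg_div, ← hγ]; ring
  refine ⟨Sum.elim (fun l => α (g l) • Pi.single l 1 + β (g l) • u (g l))
    (fun t => -γ t • u t), ?_⟩
  rintro (l | t) (l' | t') <;>
    simp only [Sum.elim_inl, Sum.elim_inr, add_dotProduct, dotProduct_add, smul_dotProduct,
      dotProduct_smul, huu, heu, hue, hee, smul_eq_mul, id, Sum.inl.injEq, Sum.inr.injEq,
      reduceCtorEq, if_false]
  · by_cases h : l = l'
    · subst h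
      have h1 := hab (g l)
      have h2 := hα (g l)
      have h3 := hd' (g l)
      have h4 : ((d (g l) : ℝ) + 1) / d (g l) + -1 / d (g l) = 1 := by field_simp; ring
      simp only [if_true]
      linarith
    · by_cases h' : g l = g l'
      · have h1 := hab (g l')
        simp only [h, h', if_true, if_false]
        linarith
      · simp [h, h', Ne.symm h']
  · by_cases h : g l = t'
    · have := hcross t'
      simp only [h, if_true]
      linarith
    · simp [h]
  · by_cases h : t = g l'
    · have := hcross t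
      simp only [← h, if_true]
      linarith
    · simp [h, Ne.symm h]
  · by_cases h : t = t'
    · subst h
      have h1 := hγ t
      have h2 := hd' t
      simp only [if_true]
      have : -γ t * (-γ t * d t) = γ t ^ 2 * d t := by ring
      rw [this, h1]; field_simp
    · simp [h]

lemma classes_of_rigid [Fintype ι] [DecidableEq ι] (hn : 0 < n) (p : ι → Fin n → ℝ) {k : ℕ}
    (hk : 0 < k) (hN : Fintype.card ι = n + k) (hp : ∀ j, p j ⬝ᵥ p j ≤ 1)
    (hK : ∀ x : Fin n → ℝ, (∀ j, p j ⬝ᵥ x ≤ 1) → x ⬝ᵥ x ≤ (n : ℝ) ^ 2 / k) :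
    ∃ f : ι → Fin k, (∀ t, (univ.filter fun i => f i = t).card * k = n + k) ∧
      ∀ i j, p i ⬝ᵥ p j = if i = j then 1 else if f i = f j then -(k : ℝ) / n else 0 := by
  classical
  have hn' : (0 : ℝ) < n := by exact_mod_cast hn
  have hk' : (0 : ℝ) < k := by exact_mod_cast hk
  obtain ⟨a, φ, ha, hφ, h1, hfr, h2⟩ := rigid hn p hk hN hp hK
  set S : Finset ι := univ \ univ.image a with hS
  have hSc : S.card = k := by
    rw [hS, card_sdiff_of_subset (subset_univ _), card_image_of_injective _ ha, card_univ, hN]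
    simp
  let F : ι → ι := fun j => if h : ∃ l, a l = j then φ h.choose else j
  have hFS : ∀ j, F j ∈ S := by
    intro j
    simp only [F, hS, mem_sdiff, mem_univ, true_and, mem_image, not_exists]
    split_ifs with h
    · exact fun l => hφ _ l
    · exact fun l hl => h ⟨l, hl⟩
  have hF1 : ∀ j (h : ∃ l, a l = j), F j = φ h.choose := fun j h => by simp only [F, dif_pos h]
  have hF2 : ∀ j, (¬ ∃ l, a l = j) → F j = j := fun j h => by simp only [F, dif_neg h]
  clear_value F
  let Q : ι → ι → ℝ := fun i j => (if i = j then 1 else 0) - n / (n + k) * (p i ⬝ᵥ p j)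
  have hQs : ∀ i j, Q i j = Q j i := fun i j => by
    simp only [Q, dotProduct_comm (p i), eq_comm]
  have hQF : ∀ m j, Q m j = Q m (F j) := by
    intro m j
    by_cases h : ∃ l, a l = j
    · have h3 := h2 h.choose m
      rw [hF1 j h]
      rw [h.choose_spec] at h3
      simp only [Q]
      have h5 : (n : ℝ) / (n + k) * ((n + k) / n) = 1 := by field_simp
      linear_combination (-(n : ℝ) / (n + k)) * h3 -
        ((if m = j then 1 else 0) - (if m = φ h.choose then 1 else 0)) * h5
    · rw [hF2 j h]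
  have hQd : ∀ j, Q j j = k / (n + k) := fun j => by
    simp only [Q, if_true, h1]; field_simp; ring
  have hQ2 : ∀ j, ∑ m, Q j m ^ 2 = k / (n + k) := by
    intro j
    have h3 := hfr (p j) (p j)
    have h4 : ∀ m, Q j m ^ 2 = (if j = m then 1 - 2 * ((n : ℝ) / (n + k)) else 0) +
        ((n : ℝ) / (n + k)) ^ 2 * ((p j ⬝ᵥ p m) * (p m ⬝ᵥ p j)) := by
      intro m
      simp only [Q, dotProduct_comm (p m)]
      split_ifs with h
      · subst h; rw [h1]; ring
      · ring
    simp only [h4, sum_add_distrib, sum_ite_eq, mem_univ, if_true, ← Finset.mul_sum, h3, h1]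
    field_simp; ring
  have hsplit : ∀ t ∈ S, ((univ.filter fun j => F j = t).card : ℝ) * (k / (n + k)) ^ 2 +
      ∑ j with ¬ F j = t, Q t j ^ 2 = k / (n + k) := by
    intro t _
    have h3 := hQ2 t
    rw [← Finset.sum_filter_add_sum_filter_not univ (fun j => F j = t),
      Finset.sum_congr rfl (g := fun _ => ((k : ℝ) / (n + k)) ^ 2) (fun j hj => by
        rw [hQF, (mem_filter.mp hj).2, hQd]), sum_const, nsmul_eq_mul] at h3
    exact h3
  have hle : ∀ t ∈ S, ((univ.filter fun j => F j = t).card : ℝ) * k ≤ n + k := by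
    intro t ht
    have h3 := hsplit t ht
    have h4 : 0 ≤ ∑ j with ¬ F j = t, Q t j ^ 2 := Finset.sum_nonneg fun _ _ => sq_nonneg _
    have h5 : ((univ.filter fun j => F j = t).card : ℝ) * (k / (n + k)) ^ 2 ≤ k / (n + k) := by
      linarith
    have h6 : (0 : ℝ) < n + k := by positivity
    rw [div_pow, ← mul_div_assoc, div_le_div_iff₀ (by positivity) h6] at h5
    have h7 : (0 : ℝ) < k * (n + k) := by positivity
    by_contra h8
    have := mul_lt_mul_of_pos_right (not_le.mp h8) h7
    nlinarith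
  have htot : ∑ t ∈ S, ((univ.filter fun j => F j = t).card : ℝ) = n + k := by
    have := Finset.card_eq_sum_card_fiberwise (s := univ) (t := S) (f := F) fun j _ => hFS j
    rw [card_univ, hN] at this
    exact_mod_cast this.symm
  have heq : ∀ t ∈ S, ((univ.filter fun j => F j = t).card : ℝ) * k = n + k := by
    refine (Finset.sum_eq_sum_iff_of_le hle).mp ?_
    rw [← Finset.sum_mul, htot, sum_const, hSc, nsmul_eq_mul, mul_comm]
  have hzero : ∀ t ∈ S, ∀ j, F j ≠ t → Q t j = 0 := by
    intro t ht j hj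
    have h3 := hsplit t ht
    have h4 : ((univ.filter fun j => F j = t).card : ℝ) * (k / (n + k)) ^ 2 = k / (n + k) := by
      have h5 := heq t ht
      rw [eq_div_of_mul_eq hk'.ne' h5]; field_simp
    have h5 : ∑ j with ¬ F j = t, Q t j ^ 2 = 0 := by linarith
    exact pow_eq_zero_iff two_ne_zero |>.mp
      ((Finset.sum_eq_zero_iff_of_nonneg fun _ _ => sq_nonneg _).mp h5 j (mem_filter.mpr ⟨mem_univ _, hj⟩))
  let e : S ≃ Fin k := Fintype.equivFinOfCardEq (by simpa using hSc)
  refine ⟨fun j => e ⟨F j, hFS j⟩, fun t => ?_, fun i j => ?_⟩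
  · have h3 := heq (e.symm t) (e.symm t).2
    have h4 : (univ.filter fun i => e ⟨F i, hFS i⟩ = t) =
        univ.filter fun j => F j = (e.symm t : S) := by
      ext i
      simp only [mem_filter, mem_univ, true_and, ← e.eq_symm_apply, Subtype.ext_iff]
    rw [h4]
    exact_mod_cast h3
  · by_cases h : i = j
    · rw [if_pos h, h, h1]
    rw [if_neg h]
    have h3 : Q i j = Q (F j) i := by rw [hQF, hQs]
    have h4 : Q i j = -(n / (n + k) * (p i ⬝ᵥ p j)) := by simp only [Q, if_neg h]; ring
    have h5 : (0 : ℝ) < n + k := by positivity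
    simp only [e.apply_eq_iff_eq, Subtype.mk.injEq]
    split_ifs with h'
    · rw [hQF (F j) i, h', hQd, h4] at h3
      field_simp at h3 ⊢
      linarith
    · rw [hzero _ (hFS j) i h', h4, neg_eq_zero, mul_eq_zero] at h3
      exact h3.resolve_left (by positivity)

end Pool.Agent.H.MP_ccba48_gt
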